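import Mathlib

set_option autoImplicit false

namespace Pool.Agent.Lib.MP_ad4d1c_co_h48

open Finset

variable {α : Type*} [DecidableEq α]

/-- A list of pairs `(U, B)` in which `B ⊆ U`, every `B` also lies in the next `U`, and no later
`B` lies in an earlier `U`. The list of second components is then an admissible sequence. -/
structure Adm (L : List (Finset α × Finset α)) : Prop where
  sub : ∀ p ∈ L, p.2 ⊆ p.1
  chain : L.IsChain (fun p q => p.2 ⊆ q.1)
  pw : L.Pairwise (fun p q => ¬ q.2 ⊆ p.1)

omit [DecidableEq α] in
theorem Adm.append {L1 L2 : List (Finset α × Finset α)} (h1 : Adm L1) (h2 : Adm L2)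
    (hs : ∀ p ∈ L1.getLast?, ∀ q ∈ L2.head?, p.2 ⊆ q.1)
    (hc : ∀ p ∈ L1, ∀ q ∈ L2, ¬ q.2 ⊆ p.1) : Adm (L1 ++ L2) where
  sub := by
    intro p hp
    rcases List.mem_append.1 hp with h | h
    · exact h1.sub p h
    · exact h2.sub p h
  chain := List.isChain_append.2 ⟨h1.chain, h2.chain, hs⟩
  pw := List.pairwise_append.2 ⟨h1.pw, h2.pw, hc⟩

omit [DecidableEq α] in
theorem Adm.of_sub {L1 L2 : List (Finset α × Finset α)} (h : Adm L2) (hi : L1 <:+: L2) :
    Adm L1 where
  sub := fun p hp => h.sub p (hi.subset hp)
  chain := by
    obtain ⟨s, t, rfl⟩ := hi
    exact (List.isChain_append.1 (List.isChain_append.1 h.chain).1).2.1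
  pw := h.pw.sublist hi.sublist

theorem Adm.map_union {L : List (Finset α × Finset α)} (h : Adm L) (S : Finset α)
    (hS : ∀ p ∈ L, Disjoint S p.1) : Adm (L.map (fun p => (S ∪ p.1, S ∪ p.2))) where
  sub := by
    intro p hp
    obtain ⟨q, hq, rfl⟩ := List.mem_map.1 hp
    exact union_subset_union_right (h.sub q hq)
  chain := by
    rw [List.isChain_map]
    exact h.chain.imp fun p q hpq => union_subset_union_right hpq
  pw := by
    rw [List.pairwise_map]
    refine List.Pairwise.imp_of_mem ?_ h.pw
    intro p q hp hq hpq hsub
    apply hpq
    intro x hx
    have hx1 : x ∈ S ∪ p.1 := hsub (mem_union_right _ hx)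
    rcases mem_union.1 hx1 with h1 | h1
    · exact absurd (h.sub q hq hx) (Finset.disjoint_left.1 (hS q hq) h1)
    · exact h1

/-- The recursive family of level paths (Savage-Winkler recursion, one list per level). -/
theorem exists_family (n : ℕ) : ∀ l : List α, l.length = n + 1 → l.Nodup →
    ∃ (l' : List α) (L : ℕ → List (Finset α × Finset α)),
      l'.Perm l ∧
      (∀ i, (L i).length = n.choose i) ∧
      (∀ i, ∀ p ∈ L i, p.1 ⊆ l.toFinset ∧ p.1.card = i + 1 ∧ p.2.card = i) ∧
      (∀ i, Adm (L i)) ∧
      (∀ i, ∀ p ∈ (L i).head?, p.1 = (l.take (i + 1)).toFinset) ∧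
      (∀ i, ∀ p ∈ (L i).getLast?, p.2 = (l'.take i).toFinset) ∧
      (∀ i, ∀ p ∈ L i, ∀ q ∈ L (i + 1), q.2 ≠ p.1) := by
  induction n with
  | zero =>
    intro l hl hnd
    obtain ⟨x, rfl⟩ := List.length_eq_one_iff.1 hl
    refine ⟨[x], fun i => if i = 0 then [({x}, ∅)] else [], List.Perm.refl _, ?_, ?_, ?_, ?_, ?_, ?_⟩
    · intro i
      rcases i with _ | i <;> simp
    · intro i p hp
      rcases i with _ | i
      · simp at hp
        subst hp
        simp
      · simp at hp
    · intro i
      rcases i with _ | i
      · exact ⟨by simp, by simp, by simp⟩
      · exact ⟨by simp, by simp, by simp⟩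
    · intro i p hp
      rcases i with _ | i
      · simp at hp
        subst hp
        simp
      · simp at hp
    · intro i p hp
      rcases i with _ | i
      · simp at hp
        subst hp
        simp
      · simp at hp
    · intro i p hp q hq
      simp at hq
  | succ n ih =>
    intro l hl hnd
    have hne : l ≠ [] := by
      intro h
      simp [h] at hl
    obtain ⟨l0, x, rfl⟩ : ∃ l0 x, l = l0 ++ [x] := ⟨l.dropLast, l.getLast hne, (List.dropLast_append_getLast hne).symm⟩
    have hl0 : l0.length = n + 1 := by simpa using hl
    have hnd0 : l0.Nodup := (List.nodup_append.1 hnd).1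
    have hx0 : x ∉ l0 := by
      intro h
      have := (List.nodup_append.1 hnd).2.2 x h x (by simp)
      exact this rfl
    obtain ⟨l1, L, hperm, hlen, hsub, hadm, hhead, hlast, hcross⟩ := ih l0 hl0 hnd0
    have hl1 : l1.length = n + 1 := by rw [hperm.length_eq, hl0]
    have hnd1 : l1.Nodup := hperm.nodup_iff.2 hnd0
    have hx1 : x ∉ l1 := fun h => hx0 (hperm.mem_iff.1 h)
    obtain ⟨l2, L', hperm', hlen', hsub', hadm', hhead', hlast', hcross'⟩ := ih l1 hl1 hnd1
    have htf : l1.toFinset = l0.toFinset := List.toFinset_eq_of_perm _ _ hperm
    have hxf : x ∉ l0.toFinset := by simpa using hx0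
    have hLx : ∀ i, ∀ p ∈ L i, x ∉ p.1 := fun i p hp h => hxf ((hsub i p hp).1 h)
    have hL'x : ∀ i, ∀ p ∈ L' i, x ∉ p.1 := fun i p hp h => by
      have := (hsub' i p hp).1 h
      rw [htf] at this
      exact hxf this
    let E : ℕ → List (Finset α × Finset α) := fun i =>
      match i with
      | 0 => []
      | i + 1 => (L' i).map (fun p => ({x} ∪ p.1, {x} ∪ p.2))
    have hE0 : E 0 = [] := rfl
    have hES : ∀ i, E (i + 1) = (L' i).map (fun p => ({x} ∪ p.1, {x} ∪ p.2)) := fun i => rfl
    have hEx : ∀ i, ∀ p ∈ E i, x ∈ p.1 ∧ x ∈ p.2 := by
      intro i p hp
      rcases i with _ | i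
      · simp [hE0] at hp
      · rw [hES] at hp
        obtain ⟨q, hq, rfl⟩ := List.mem_map.1 hp
        simp
    have hEadm : ∀ i, Adm (E i) := by
      intro i
      rcases i with _ | i
      · exact ⟨by simp [hE0], by simp [hE0], by simp [hE0]⟩
      · rw [hES]
        apply (hadm' i).map_union
        intro p hp
        simpa using hL'x i p hp
    refine ⟨x :: l2, fun i => L i ++ E i, ?_, ?_, ?_, ?_, ?_, ?_, ?_⟩
    · have : (x :: l2).Perm (x :: l0) := (hperm'.trans hperm).cons x
      exact this.trans (List.perm_append_singleton x l0).symm
    · intro i
      rcases i with _ | i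
      · simp [hE0, hlen]
      · simp only [List.length_append, hES, List.length_map, hlen, hlen']
        rw [Nat.choose_succ_succ, add_comm]
    · intro i p hp
      rcases List.mem_append.1 hp with h | h
      · obtain ⟨h1, h2, h3⟩ := hsub i p h
        refine ⟨?_, h2, h3⟩
        intro y hy
        have := h1 hy
        simp only [List.toFinset_append, mem_union]
        exact Or.inl this
      · rcases i with _ | i
        · simp [hE0] at h
        · rw [hES] at h
          obtain ⟨q, hq, rfl⟩ := List.mem_map.1 h
          obtain ⟨h1, h2, h3⟩ := hsub' i q hq
          have hxq : x ∉ q.1 := hL'x i q hq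
          have hxq2 : x ∉ q.2 := fun h => hxq ((hadm' i).sub q hq h)
          refine ⟨?_, ?_, ?_⟩
          · intro y hy
            simp only [List.toFinset_append, mem_union]
            rcases mem_union.1 hy with hy | hy
            · right
              simpa using hy
            · left
              rw [← htf]
              exact h1 hy
          · simp only
            rw [card_union_of_disjoint (by simpa using hxq), card_singleton, h2]
            omega
          · simp only
            rw [card_union_of_disjoint (by simpa using hxq2), card_singleton, h3]
            omega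
    · intro i
      apply (hadm i).append (hEadm i)
      · intro p hp q hq
        rcases i with _ | i
        · simp [hE0] at hq
        · have h1 := hlast (i + 1) p hp
          rw [hES, List.head?_map] at hq
          obtain ⟨q', hq', rfl⟩ := Option.mem_map.1 hq
          have h2 := hhead' i q' hq'
          simp only
          rw [h1, h2]
          exact subset_union_right
      · intro p hp q hq hsubs
        exact hLx i p hp (hsubs (hEx i q hq).2)
    · intro i p hp
      by_cases hi : n < i
      · -- L i is empty
        have hLi : L i = [] := List.eq_nil_of_length_eq_zero (by rw [hlen]; exact Nat.choose_eq_zero_of_lt hi)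
        simp only [hLi, List.nil_append] at hp
        rcases i with _ | i
        · omega
        · rw [hES, List.head?_map] at hp
          obtain ⟨q', hq', rfl⟩ := Option.mem_map.1 hp
          have hi' : i ≤ n := by
            by_contra hcon
            have : L' i = [] := List.eq_nil_of_length_eq_zero (by rw [hlen']; exact Nat.choose_eq_zero_of_lt (by omega))
            simp [this] at hq'
          have hin : i = n := by omega
          subst hin
          have h2 := hhead' i q' hq'
          simp only
          rw [h2]
          have e1 : l1.take (i + 1) = l1 := List.take_of_length_le (by omega)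
          have e2 : (l0 ++ [x]).take (i + 1 + 1) = l0 ++ [x] := List.take_of_length_le (by simp; omega)
          rw [e1, e2, htf, List.toFinset_append]
          ext y
          simp
      · have hLi : L i ≠ [] := by
          intro h
          have := hlen i
          rw [h] at this
          simp only [List.length_nil] at this
          have h2 := Nat.choose_pos (n := n) (k := i) (by omega)
          omega
        have : (L i ++ E i).head? = (L i).head? := by
          rw [List.head?_append_of_ne_nil _ hLi]
        rw [this] at hp
        have h1 := hhead i p hp
        rw [h1]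
        congr 1
        rw [List.take_append_of_le_length (by omega)]
    · intro i p hp
      rcases i with _ | i
      · simp only [hE0, List.append_nil] at hp
        have := hlast 0 p hp
        simpa using this
      · by_cases hE : E (i + 1) = []
        · exfalso
          -- then i > n, so L (i+1) = [] too
          have hi : n < i := by
            by_contra hcon
            rw [hES] at hE
            have h0 : (L' i).length = 0 := by
              have := congrArg List.length hE
              simpa using this
            rw [hlen'] at h0
            have := Nat.choose_pos (n := n) (k := i) (by omega)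
            omega
          have hLi : L (i + 1) = [] := List.eq_nil_of_length_eq_zero (by rw [hlen]; exact Nat.choose_eq_zero_of_lt (by omega))
          change p ∈ (L (i + 1) ++ E (i + 1)).getLast? at hp
          rw [hLi, hE] at hp
          simp at hp
        · change p ∈ (L (i + 1) ++ E (i + 1)).getLast? at hp
          rw [List.getLast?_append_of_ne_nil _ hE] at hp
          rw [hES, List.getLast?_map] at hp
          obtain ⟨q', hq', rfl⟩ := Option.mem_map.1 hp
          have h2 := hlast' i q' hq'
          simp only
          rw [h2, List.take_succ_cons, List.toFinset_cons]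
          rfl
    · intro i p hp q hq
      rcases List.mem_append.1 hp with h | h <;> rcases List.mem_append.1 hq with h' | h'
      · exact hcross i p h q h'
      · intro he
        exact hLx i p h (he ▸ (hEx (i + 1) q h').2)
      · intro he
        have h1 := (hEx i p h).1
        rw [← he] at h1
        exact hLx (i + 1) q h' ((hadm (i + 1)).sub q h' h1)
      · rcases i with _ | i
        · simp [hE0] at h
        · rw [hES] at h h'
          obtain ⟨p', hp', rfl⟩ := List.mem_map.1 h
          obtain ⟨q', hq', rfl⟩ := List.mem_map.1 h'
          intro he
          simp only at he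
          apply hcross' i p' hp' q' hq'
          have hx1 : x ∉ p'.1 := hL'x i p' hp'
          have hx2 : x ∉ q'.2 := fun h => hL'x (i + 1) q' hq' ((hadm' (i + 1)).sub q' hq' h)
          ext y
          have := congrArg (fun s => y ∈ s) he
          simp only [mem_union, mem_singleton, eq_iff_iff] at this
          by_cases hy : y = x
          · subst hy
            simp [hx1, hx2]
          · simpa [hy] using this

end Pool.Agent.Lib.MP_ad4d1c_co_h48
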