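import Mathlib
import Pool.Agent.Lib.MP_ad4d1c_co_h48.Family

set_option autoImplicit false

/-!
# Definitions for the exact Felsner–Trotter theorem (MP_ad4d1c_co, frozen S10767)

Everything lives over `Finset ℕ`.  A *pair* `(U, B)` has a peak `U` and a valley `B ⊆ U`.
A *family* is a list of pairs for every level `l`; on level `l` peaks have `l+1` elements and
valleys have `l` elements.
-/

namespace Pool.Agent.Lib.MP_ad4d1c_co_h48.Ex

open Finset

abbrev Pr := Finset ℕ × Finset ℕ
abbrev Fam := ℕ → List Pr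

/-- insert `y` in both components -/
def ins (y : ℕ) (p : Pr) : Pr := (insert y p.1, insert y p.2)

/-- level `l` of `N` followed by `y` + level `l-1` of `Y`. -/
def comp (y : ℕ) (N Y : Fam) : Fam
  | 0 => N 0
  | l + 1 => N (l + 1) ++ (Y l).map (ins y)

/-- the empty family -/
def nil : Fam := fun _ => []

/-- A T-PV family on the ground set `b.toFinset` (`b` = start order).
`T l` : at most one detached pair `(P, c)` (visited before the path of level `l`, in the order
`c, P`); `L l` : the path of level `l`, `U₁, B₁, U₂, B₂, …`. -/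
structure TPV (b : List ℕ) (T L : Fam) : Prop where
  nd : b.Nodup
  mem : ∀ l, ∀ p ∈ T l ++ L l, p.2 ⊆ p.1 ∧ p.1 ⊆ b.toFinset ∧ p.1.card = l + 1 ∧ p.2.card = l
  pw : ∀ l, (T l ++ L l).Pairwise (fun p q => ¬ q.2 ⊆ p.1)
  chain : ∀ l, (L l).IsChain (fun p q => p.2 ⊆ q.1)
  cross : ∀ l, ∀ p ∈ T l ++ L l, ∀ q ∈ T (l + 1) ++ L (l + 1), q.2 ≠ p.1
  len : ∀ l, (T l).length + (L l).length = (b.length - 1).choose l
  tlen : ∀ l, (T l).length ≤ 1
  head : ∀ l, ∀ p ∈ (L l).head?, p.1 = (b.take (l + 1)).toFinset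

/-- the last valley of level `l` is the set of the first `l` elements of `a` -/
def Ends (a : List ℕ) (L : Fam) : Prop :=
  ∀ l, ∀ p ∈ (L l).getLast?, p.2 = (a.take l).toFinset

/-- plain PV family with start order `b` and end order `a` -/
structure PV (b a : List ℕ) (L : Fam) : Prop where
  tpv : TPV b nil L
  ends : Ends a L
  perm : a.Perm b

/-- T-modification: from a plain family with start order `q :: r :: x :: b'` to a family with
start order `r :: x :: q :: b'` and a detached pair `({q,r},{q})` on level 1. -/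
def tmodT (q r : ℕ) : Fam := fun l => if l = 1 then [({q, r}, {q})] else []

def tmodL (r : ℕ) (L : Fam) : Fam := fun l =>
  if l = 0 then [({r}, ∅)] else if l = 1 then (L 1).tail else L l

/-- detaching level 0 -/
def det0T (T L : Fam) : Fam := fun l => if l = 0 then L 0 else T l
def det0L (L : Fam) : Fam := fun l => if l = 0 then [] else L l

/-- all valleys of `L` avoid the set `M` -/
def Avoid (L : Fam) (M : Finset ℕ) : Prop := ∀ l, ∀ p ∈ L l, p.2 ≠ M

/-- relabelling of a family -/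
def rel (f : ℕ → ℕ) (F : Fam) : Fam := fun l => (F l).map (fun p => (p.1.image f, p.2.image f))

/-! ## W-side -/

/-- The pair not containing `Ap`. -/
def zz (Ap q1 r1 q2 r2 : ℕ) : Finset ℕ := if Ap = r2 ∨ Ap = q2 then {q1, r1} else {q2, r2}

/-- The marks: peaks of the detached pairs of a W-structure with chain `D`, first pair `{q1,r1}`,
second pair `{q2,r2}`, extra elements `x`, `w`, special element `Ap`.
`Pk nodd … l` is the peak (with `l+1` elements) on level `l`, `1 ≤ l ≤ topT nodd D`. -/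
def Pk (nodd : Bool) (q1 r1 q2 r2 x w Ap : ℕ) (D : List ℕ) (l : ℕ) : Finset ℕ :=
  let S : Finset ℕ := (q1 :: r1 :: q2 :: r2 :: x :: w :: D).toFinset
  if l ≤ D.length + 1 then
    (D.take (l - 1)).toFinset ∪ (if (l - 1) % 2 = 0 then {q1, r1} else {q2, r2})
  else if nodd then
    (if l = D.length + 2 then S \ {Ap, x, w}
     else if l = D.length + 3 then S \ {Ap, w}
     else S \ {w})
  else
    (if l = D.length + 2 then S \ (insert w (zz Ap q1 r1 q2 r2))
     else S \ {Ap, w})

/-- last level with a detached pair -/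
def topT (nodd : Bool) (D : List ℕ) : ℕ := D.length + 3 + (if nodd then 1 else 0)

/-- W-structure. Ground set `{q1,r1,q2,r2,x,w} ∪ D`, `D` nonempty, start order `b`. -/
structure WT (nodd : Bool) (q1 r1 q2 r2 x w Ap : ℕ) (D b : List ℕ) (T L : Fam) : Prop where
  tpv : TPV b T L
  nd : (q1 :: r1 :: q2 :: r2 :: x :: w :: D).Nodup
  form : ∃ d1 D1 a', D = d1 :: D1 ∧ a'.Perm D1 ∧ b = [r1, x, q1, w] ++ a' ++ [q2, r2, d1]
  tsome : ∀ l, 1 ≤ l → l ≤ topT nodd D →
    ∃ c, T l = [(Pk nodd q1 r1 q2 r2 x w Ap D l, c)]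
  tnone : ∀ l, l = 0 ∨ topT nodd D < l → T l = []
  link : ∀ l, 1 ≤ l → ∀ p ∈ (L l).getLast?, ∀ q ∈ T (l + 1), p.2 ⊆ q.2
  toplink : ∀ l, l = topT nodd D → ∀ p ∈ (L l).getLast?, ∀ q ∈ (L (l + 1)).getLast?, p.2 ⊆ q.2

/-! ## special families of the V-side -/

structure SP (κ q A B z Z : ℕ) (b a : List ℕ) (T L : Fam) : Prop where
  tpv : TPV b T L
  ends : Ends a L
  perm : a.Perm b
  t2 : T (b.length - 2) = [(b.toFinset \ {κ}, b.toFinset \ {κ, A})]
  t3 : T (b.length - 3) = [(b.toFinset \ {κ, z}, b.toFinset \ {κ, z, Z})]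
  t4 : T (b.length - 4) = [(b.toFinset \ {κ, q, A}, b.toFinset \ {κ, q, A, B})]
  tnone : ∀ l, l ≠ b.length - 2 → l ≠ b.length - 3 → l ≠ b.length - 4 → T l = []

/-! ## V-side -/

/-- V-family on the ground set `{1,…,i}` with starts `s k` and ends `e k`. -/
structure VV (i : ℕ) (s e : ℕ → Finset ℕ) (V : Fam) : Prop where
  mem : ∀ k, ∀ p ∈ V k, p.2 ⊆ p.1 ∧ p.1 ⊆ Icc 1 i ∧ p.1.card ≤ k + 1 ∧ p.2.card = k
  pw : ∀ k, (V k).Pairwise (fun p q => ¬ q.2 ⊆ p.1)
  chain : ∀ k, (V k).IsChain (fun p q => p.2 ⊆ q.1)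
  cross : ∀ k, ∀ p ∈ V k, ∀ q ∈ V (k + 1), q.2 ≠ p.1
  len : ∀ k, k ≤ i → (V k).length = (i - 1).choose k + k % 2
  none : ∀ k, i < k → V k = []
  head : ∀ k, ∀ p ∈ (V k).head?, p = (s k, s k)
  last : ∀ k, ∀ p ∈ (V k).getLast?, p.2 = e k

/-- `acc = (h, h) :: t` becomes `(y∪c, y∪c) :: (y∪P, h) :: t` for `p = (P, c)`. -/
def step (y : ℕ) (acc : List Pr) (p : Pr) : List Pr :=
  (insert y p.2, insert y p.2) ::
    (match acc with
      | [] => []
      | h :: t => (insert y p.1, h.2) :: t)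

/-- join: `V` plus `y` times the T-PV family `(T, L)` -/
def join (y : ℕ) (V T L : Fam) : Fam
  | 0 => V 0
  | k + 1 => (T k).foldl (step y) (V (k + 1)) ++ (L k).map (ins y)

/-- start sets after a join -/
def joinS (y : ℕ) (s : ℕ → Finset ℕ) (T : Fam) : ℕ → Finset ℕ
  | 0 => s 0
  | k + 1 => match T k with
      | [] => s (k + 1)
      | p :: _ => insert y p.2

/-- end sets after a join -/
def joinE (y : ℕ) (e : ℕ → Finset ℕ) (L : Fam) : ℕ → Finset ℕ
  | 0 => e 0
  | k + 1 => match (L k).getLast? with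
      | none => e (k + 1)
      | some p => insert y p.2

/-- top modification for even `i` (`y = i+1`): level `i` is the single set `y ∪ (last valley of
level i-1)`, level `i+1` is the single full set. -/
def topMod (i y : ℕ) (L V' : Fam) : Fam := fun k =>
  if k = i then (L (i - 1)).map (fun p => (insert y p.2, insert y p.2))
  else if k = i + 1 then [(Icc 1 (i + 1), Icc 1 (i + 1))]
  else V' k

def topS (i y : ℕ) (L : Fam) (s' : ℕ → Finset ℕ) : ℕ → Finset ℕ := fun k =>
  if k = i then (match L (i - 1) with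
    | [] => ∅
    | p :: _ => insert y p.2)
  else if k = i + 1 then Icc 1 (i + 1) else s' k

def topE (i : ℕ) (e' : ℕ → Finset ℕ) : ℕ → Finset ℕ := fun k =>
  if k = i + 1 then Icc 1 (i + 1) else e' k

/-- modification of a join for odd `i` where the path of level `i-2` of `L` is used reversed, in
front of level `i-1` of `V`. -/
def revMod (i y : ℕ) (V L V' : Fam) : Fam := fun k =>
  if k = i - 1 then (L (i - 2)).foldl (step y) (V (i - 1)) else V' k

def revS (i y : ℕ) (L : Fam) (s' : ℕ → Finset ℕ) : ℕ → Finset ℕ := fun k =>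
  if k = i - 1 then (match (L (i - 2)).getLast? with
    | none => ∅
    | some p => insert y p.2)
  else s' k

def revE (i : ℕ) (e e' : ℕ → Finset ℕ) : ℕ → Finset ℕ := fun k =>
  if k = i - 1 then e (i - 1) else e' k

/-! ## concrete labels -/

/-- `δ_j` -/
def dl (j : ℕ) : ℕ := if j % 2 = 1 then j + 6 else j + 2

/-- `[δ_a, …, δ_{a+k-1}]` -/
def dls (a k : ℕ) : List ℕ := (List.range' a k).map dl

/-- `τ_k = {δ_1, …, δ_{k-2}} ∪ {A', B'}` or `{z, Z}`, with `A'=1, B'=3, z=2, Z=5`. -/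
def tau (k : ℕ) : Finset ℕ :=
  (dls 1 (k - 2)).toFinset ∪ (if k % 2 = 0 then {1, 3} else {2, 5})

/-- starts of the V-family for even `i` (`ty` = last element of the end order of the special family
used before) -/
def sV (i ty k : ℕ) : Finset ℕ :=
  if k = 0 then ∅
  else if k = 1 then {i}
  else if k = i - 1 then Icc 1 (i - 1)
  else if k = i - 2 then Icc 1 (i - 1) \ {ty}
  else if k = i - 3 then Icc 1 (i - 1) \ {1, i - 2}
  else tau k

/-- starts of the V-family for odd `i` (right after the special family) -/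
def sO (i ty k : ℕ) : Finset ℕ :=
  if k = 0 then ∅
  else if k = 1 then {i}
  else if k = i then Icc 1 i
  else if k = i - 1 then Icc 1 i \ {ty}
  else if k = i - 2 then Icc 1 i \ {1, i - 1}
  else if k = i - 3 then Icc 1 i \ {i - 1, 2, 5}
  else tau k

/-- ends: `e 0 = ∅`, `e 1 = {1}`, `e k = {i, α_1, …, α_{k-1}}` -/
def eV (i : ℕ) (α : List ℕ) (k : ℕ) : Finset ℕ :=
  if k = 0 then ∅
  else if k = 1 then {1}
  else insert i (α.take (k - 1)).toFinset

/-- last T-level of the final W-family on `{1,…,m}` -/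
def topK (m : ℕ) : ℕ := if m % 2 = 0 then m - 2 else m - 3

/-- starts of the last V-family -/
def sTop (m k : ℕ) : Finset ℕ := if m % 2 = 0 then sV m 1 k else sO m 7 k

/-- final W-family on `{1,…,m}` with start order `b` -/
structure WF (m : ℕ) (b : List ℕ) (T L : Fam) : Prop where
  tpv : TPV b T L
  gs : b.toFinset = Icc 1 m
  tsome : ∀ k, 2 ≤ k → k ≤ topK m → ∃ c, T k = [(sTop m (k + 1), c)]
  tnone : ∀ k, k ≤ 1 ∨ topK m < k → T k = []
  link : ∀ k, 1 ≤ k → ∀ p ∈ (L k).getLast?, ∀ q ∈ T (k + 1), p.2 ⊆ q.2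
  toplink : ∀ k, k = topK m → ∀ p ∈ (L k).getLast?, ∀ q ∈ (L (k + 1)).getLast?, p.2 ⊆ q.2

end Pool.Agent.Lib.MP_ad4d1c_co_h48.Ex
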