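import Mathlib
import Pool.Agent.Lib.MP_ad4d1c_co_h48.Family

set_option autoImplicit false

namespace Pool.Agent.Lib.MP_ad4d1c_co_h48

open Finset

variable {α : Type*} [DecidableEq α]

omit [DecidableEq α] in
theorem Adm.nodup_snd {J : List (Finset α × Finset α)} (hJ : Adm J) :
    (J.map Prod.snd).Nodup := by
  rw [List.Nodup, List.pairwise_map]
  refine List.Pairwise.imp_of_mem ?_ hJ.pw
  intro p q hp hq hpq he
  exact hpq (he ▸ hJ.sub p hp)

theorem exists_mem_not_bad {J : List (Finset α × Finset α)} (hJ : Adm J)
    (bad : Finset (Finset α)) (hlt : bad.card < J.length) : ∃ p ∈ J, p.2 ∉ bad := by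
  have h1 : ((J.map Prod.snd).toFinset).card = J.length := by
    rw [List.toFinset_card_of_nodup hJ.nodup_snd, List.length_map]
  obtain ⟨a, ha, hb⟩ := Finset.exists_mem_notMem_of_card_lt_card (s := bad)
    (t := (J.map Prod.snd).toFinset) (by omega)
  rw [List.mem_toFinset, List.mem_map] at ha
  obtain ⟨p, hp, rfl⟩ := ha
  exact ⟨p, hp, hb⟩

/-- subsets of `V` containing a member of `T` -/
def bad1 (V : Finset α) (T : Finset (Finset α)) : Finset (Finset α) :=
  V.powerset.filter (fun a => ∃ t ∈ T, t ⊆ a)

/-- subsets of `V` that meet `c` in fewer than `s` points -/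
def bad2 (V c : Finset α) (s : ℕ) : Finset (Finset α) :=
  V.powerset.filter (fun a => (a ∩ c).card < s)

theorem card_bad1_le (V : Finset α) (T : Finset (Finset α)) (s : ℕ)
    (hT : ∀ t ∈ T, t ⊆ V ∧ s ≤ t.card) : (bad1 V T).card ≤ T.card * 2 ^ (V.card - s) := by
  have h1 : bad1 V T ⊆ T.biUnion (fun t => Finset.Icc t V) := by
    intro a ha
    rw [bad1, mem_filter, mem_powerset] at ha
    obtain ⟨haV, t, ht, hta⟩ := ha
    rw [mem_biUnion]
    exact ⟨t, ht, by rw [Finset.mem_Icc]; exact ⟨hta, haV⟩⟩
  calc (bad1 V T).card ≤ (T.biUnion (fun t => Finset.Icc t V)).card := card_le_card h1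
    _ ≤ ∑ t ∈ T, (Finset.Icc t V).card := card_biUnion_le
    _ ≤ ∑ t ∈ T, 2 ^ (V.card - s) := by
        apply sum_le_sum
        intro t ht
        rw [Finset.card_Icc_finset (hT t ht).1]
        exact Nat.pow_le_pow_right (by norm_num) (by have := (hT t ht).2; omega)
    _ = T.card * 2 ^ (V.card - s) := by rw [sum_const, smul_eq_mul]

/-- The invariant of the backward construction. -/
structure Tail (V R : Finset α) (s : ℕ) (Λ : List (Finset α × Finset α))
    (T : Finset (Finset α)) (c : Finset α) (M : Finset α → Finset α → Prop) : Prop where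
  adm : Adm Λ
  head : ∀ p ∈ Λ.head?, p.1 = R ∪ c
  cV : c ⊆ V
  tV : ∀ t ∈ T, t ⊆ V ∧ s ≤ t.card
  mem : ∀ q ∈ Λ, (∃ t ∈ T, q.2 = R ∪ t) ∨ (∃ S a, M S a ∧ S ⊆ R ∧ a ⊆ V ∧ q.2 = S ∪ a)

/-- disjoint decoupling of inclusions -/
theorem sub_decouple {V R S S' a b : Finset α} (hVR : Disjoint V R) (hS : S ⊆ R) (hS' : S' ⊆ R)
    (ha : a ⊆ V) (hb : b ⊆ V) (h : S' ∪ a ⊆ S ∪ b) : S' ⊆ S ∧ a ⊆ b := by
  constructor
  · intro x hx
    rcases mem_union.1 (h (mem_union_left _ hx)) with h1 | h1
    · exact h1
    · exact absurd (hS' hx) (Finset.disjoint_left.1 hVR (hb h1))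
  · intro x hx
    rcases mem_union.1 (h (mem_union_right _ hx)) with h1 | h1
    · exact absurd (hS h1) (Finset.disjoint_left.1 hVR (ha hx))
    · exact h1

theorem inner (V R : Finset α) (hVR : Disjoint V R) (s K κ j : ℕ) (B : List (Finset α))
    (hB : ∀ S ∈ B, S ⊆ R ∧ S ≠ R) (hBpw : B.Pairwise (fun S S' => ¬ S' ⊆ S)) :
    ∀ (L : List (Finset α × Finset α)), Adm L → (∀ p ∈ L, p.1 ⊆ V ∧ p.2.card = j) →
      2 * K * B.length ≤ L.length → (∀ p ∈ L, (bad2 V p.2 s).card ≤ κ) →
    ∀ (Λ0 : List (Finset α × Finset α)) (T0 : Finset (Finset α)) (c0 : Finset α)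
      (M0 : Finset α → Finset α → Prop), Tail V R s Λ0 T0 c0 M0 → (bad2 V c0 s).card ≤ κ →
      (T0.card + B.length + 1) * 2 ^ (V.card - s) + κ < K →
      (∀ S a, M0 S a → ∀ p ∈ L, ¬ a ⊆ p.1) →
    ∃ (Λ : List (Finset α × Finset α)) (T : Finset (Finset α)) (c : Finset α),
      Tail V R s Λ T c (fun S a => M0 S a ∨ (S ∈ B ∧ ∃ p ∈ L, a = p.2)) ∧
      (bad2 V c s).card ≤ κ ∧ T.card ≤ T0.card + B.length ∧
      Λ0.length + B.length * (L.length - 2 * K * B.length) ≤ Λ.length := by
  induction B with
  | nil =>
    intro L hL hLV hlen hrich Λ0 T0 c0 M0 hT hc hK hM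
    refine ⟨Λ0, T0, c0, ⟨hT.adm, hT.head, hT.cV, hT.tV, ?_⟩, hc, by simp, by simp⟩
    intro q hq
    rcases hT.mem q hq with h | ⟨S, a, h1, h2⟩
    · exact Or.inl h
    · exact Or.inr ⟨S, a, Or.inl h1, h2⟩
  | cons S B ih =>
    intro L hL hLV hlen hrich Λ0 T0 c0 M0 hT hc hK hM
    have hSR : S ⊆ R := (hB S (by simp)).1
    have hSR' : S ≠ R := (hB S (by simp)).2
    have hRS : ¬ R ⊆ S := fun h => hSR' (subset_antisymm hSR h)
    rw [List.length_cons] at hlen hK
    have hlen2 : 2 * K + 2 * K * B.length ≤ L.length := by
      have : 2 * K * (B.length + 1) = 2 * K + 2 * K * B.length := by ring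
      omega
    -- split L
    obtain ⟨I, L', J, hLeq, hIlen, hL'len, hJlen⟩ : ∃ I L' J : List (Finset α × Finset α),
        L = I ++ (L' ++ J) ∧ I.length = K ∧ L'.length = L.length - 2 * K ∧ J.length = K := by
      refine ⟨L.take K, (L.drop K).take (L.length - 2 * K), (L.drop K).drop (L.length - 2 * K),
        ?_, ?_, ?_, ?_⟩
      · rw [List.take_append_drop, List.take_append_drop]
      · rw [List.length_take]; omega
      · rw [List.length_take, List.length_drop]; omega
      · rw [List.length_drop, List.length_drop]; omega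
    have hL'inf : L' <:+: L := ⟨I, J, by rw [hLeq, List.append_assoc]⟩
    have hIinf : I <:+: L := ⟨[], L' ++ J, by rw [hLeq]; rfl⟩
    have hJinf : J <:+: L := ⟨I ++ L', [], by rw [hLeq]; simp⟩
    -- recursive call
    obtain ⟨Λ', T', c', hT', hc', hcard', hlen'⟩ := ih (fun S' h => hB S' (by simp [h]))
      (List.pairwise_cons.1 hBpw).2 L' (hL.of_sub hL'inf) (fun p hp => hLV p (hL'inf.subset hp))
      (by omega) (fun p hp => hrich p (hL'inf.subset hp)) Λ0 T0 c0 M0 hT hc (by
        refine lt_of_le_of_lt ?_ hK
        gcongr
        omega) (fun S' a h p hp => hM S' a h p (hL'inf.subset hp))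
    -- choose the end point
    have hbadq : (bad1 V T' ∪ bad2 V c' s).card < J.length := by
      rw [hJlen]
      refine lt_of_le_of_lt (card_union_le _ _) (lt_of_le_of_lt ?_ hK)
      refine Nat.add_le_add ((card_bad1_le V T' s hT'.tV).trans ?_) hc'
      gcongr
      omega
    obtain ⟨pq, hpqJ, hpq⟩ := exists_mem_not_bad (hL.of_sub hJinf) _ hbadq
    have hpqL : pq ∈ L := hJinf.subset hpqJ
    have hpq1V : pq.1 ⊆ V := (hLV pq hpqL).1
    have hpq2V : pq.2 ⊆ V := (hL.sub pq hpqL).trans hpq1V
    rw [mem_union, not_or] at hpq
    have hpqT : ∀ t ∈ T', ¬ t ⊆ pq.2 := by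
      intro t ht hsub
      apply hpq.1
      rw [bad1, mem_filter, mem_powerset]
      exact ⟨hpq2V, t, ht, hsub⟩
    have hpqc : s ≤ (pq.2 ∩ c').card := by
      by_contra hcon
      apply hpq.2
      rw [bad2, mem_filter, mem_powerset]
      exact ⟨hpq2V, by omega⟩
    set t := pq.2 ∩ c' with ht_def
    have htV : t ⊆ V := inter_subset_left.trans hpq2V
    have htq : t ⊆ pq.2 := inter_subset_left
    have htc : t ⊆ c' := inter_subset_right
    have hTT : ∀ u ∈ insert t T', u ⊆ V ∧ s ≤ u.card := by
      intro u hu
      rcases mem_insert.1 hu with rfl | hu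
      · exact ⟨htV, hpqc⟩
      · exact hT'.tV u hu
    -- choose the start point
    have hbadp : (bad1 V (insert t T')).card < I.length := by
      rw [hIlen]
      refine lt_of_le_of_lt (card_bad1_le V _ s hTT) (lt_of_le_of_lt ?_ hK)
      refine le_trans ?_ (Nat.le_add_right _ _)
      gcongr
      have := card_insert_le t T'
      omega
    obtain ⟨pp, hppI, hpp⟩ := exists_mem_not_bad (hL.of_sub hIinf) _ hbadp
    have hppL : pp ∈ L := hIinf.subset hppI
    have hpp1V : pp.1 ⊆ V := (hLV pp hppL).1
    have hpp2V : pp.2 ⊆ V := (hL.sub pp hppL).trans hpp1V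
    have hppT : ∀ u ∈ insert t T', ¬ u ⊆ pp.2 := by
      intro u hu hsub
      apply hpp
      rw [bad1, mem_filter, mem_powerset]
      exact ⟨hpp2V, u, hu, hsub⟩
    obtain ⟨J1, J2, hJeq⟩ := List.append_of_mem hpqJ
    obtain ⟨I1, I2, hIeq⟩ := List.append_of_mem hppI
    set mid := I2 ++ (L' ++ (J1 ++ [pq])) with hmid
    have hLeq2 : L = I1 ++ ((pp :: mid) ++ J2) := by
      rw [hLeq, hIeq, hJeq, hmid]; simp
    have hppmid : (pp :: mid) <:+: L := ⟨I1, J2, by rw [hLeq2, List.append_assoc]⟩
    have hmidinf : mid <:+: L := ⟨I1 ++ [pp], J2, by rw [hLeq2]; simp⟩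
    have hAmid : Adm (pp :: mid) := hL.of_sub hppmid
    have hAmid' : Adm mid := hL.of_sub hmidinf
    have hdisjS : ∀ p ∈ L, Disjoint S p.1 := fun p hp =>
      (Finset.disjoint_of_subset_left (hLV p hp).1 (Finset.disjoint_of_subset_right hSR hVR)).symm
    have hmapadm : Adm (mid.map (fun p => (S ∪ p.1, S ∪ p.2))) :=
      hAmid'.map_union S (fun p hp => hdisjS p (hmidinf.subset hp))
    -- first part of the segment
    have hseg1 : Adm ([(R ∪ pp.2, S ∪ pp.2)] ++ mid.map (fun p => (S ∪ p.1, S ∪ p.2))) := by
      apply Adm.append _ hmapadm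
      · intro p hp q hq
        simp only [List.getLast?_singleton, Option.mem_some_iff] at hp
        subst hp
        rw [List.head?_map] at hq
        obtain ⟨q', hq', rfl⟩ := Option.mem_map.1 hq
        have := (List.isChain_cons.1 hAmid.chain).1 q' hq'
        exact union_subset_union_right this
      · intro p hp q hq
        simp only [List.mem_singleton] at hp
        subst hp
        obtain ⟨q', hq', rfl⟩ := List.mem_map.1 hq
        intro hsub
        have hq'L := hmidinf.subset hq'
        have h1 := (sub_decouple hVR (subset_refl R) hSR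
          ((hL.sub q' hq'L).trans (hLV q' hq'L).1) hpp2V hsub).2
        exact (List.pairwise_cons.1 hAmid.pw).1 q' hq' (h1.trans (hL.sub pp hppL))
      · refine ⟨?_, by simp, by simp⟩
        intro p hp
        simp only [List.mem_singleton] at hp
        subst hp
        exact union_subset_union_left hSR
    have hseg2 : Adm ([(R ∪ pq.2, R ∪ t)] : List (Finset α × Finset α)) := by
      refine ⟨?_, by simp, by simp⟩
      intro p hp
      simp only [List.mem_singleton] at hp
      subst hp
      exact union_subset_union_right htq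
    have hseg : Adm (([(R ∪ pp.2, S ∪ pp.2)] ++ mid.map (fun p => (S ∪ p.1, S ∪ p.2))) ++
        [(R ∪ pq.2, R ∪ t)]) := by
      apply Adm.append hseg1 hseg2
      · intro p hp q hq
        have hp' : p = (S ∪ pq.1, S ∪ pq.2) := by
          rw [hmid] at hp
          simp only [List.map_append, List.map_cons, List.map_nil, ← List.append_assoc,
            List.getLast?_concat, Option.mem_some_iff] at hp
          exact hp.symm
        subst hp'
        simp only [List.head?_cons, Option.mem_some_iff] at hq
        subst hq
        exact union_subset_union_left hSR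
      · intro p hp q hq
        simp only [List.mem_singleton] at hq
        subst hq
        rcases List.mem_append.1 hp with h | h
        · simp only [List.mem_singleton] at h
          subst h
          intro hsub
          exact hppT t (mem_insert_self _ _)
            (sub_decouple hVR (subset_refl R) (subset_refl R) htV hpp2V hsub).2
        · obtain ⟨p', hp', rfl⟩ := List.mem_map.1 h
          intro hsub
          exact hRS (sub_decouple hVR hSR (subset_refl R) htV (hLV p' (hmidinf.subset hp')).1 hsub).1
    refine ⟨(([(R ∪ pp.2, S ∪ pp.2)] ++ mid.map (fun p => (S ∪ p.1, S ∪ p.2))) ++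
        [(R ∪ pq.2, R ∪ t)]) ++ Λ', insert t T', pp.2, ⟨?_, ?_, hpp2V, hTT, ?_⟩,
        hrich pp hppL, ?_, ?_⟩
    · apply Adm.append hseg hT'.adm
      · intro p hp q hq
        simp only [List.getLast?_concat, Option.mem_some_iff] at hp
        subst hp
        rw [hT'.head q hq]
        exact union_subset_union_right htc
      · intro p hp q hq hsub
        -- classify q
        rcases hT'.mem q hq with ⟨u, hu, hqu⟩ | ⟨S', a, hMa, hS'R, haV, hqa⟩
        · -- q.2 = R ∪ u
          have huV := (hT'.tV u hu).1
          rw [hqu] at hsub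
          rcases List.mem_append.1 hp with h | h
          · rcases List.mem_append.1 h with h | h
            · simp only [List.mem_singleton] at h
              subst h
              exact hppT u (mem_insert_of_mem hu)
                (sub_decouple hVR (subset_refl R) (subset_refl R) huV hpp2V hsub).2
            · obtain ⟨p', hp', rfl⟩ := List.mem_map.1 h
              exact hRS (sub_decouple hVR hSR (subset_refl R) huV
                (hLV p' (hmidinf.subset hp')).1 hsub).1
          · simp only [List.mem_singleton] at h
            subst h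
            exact hpqT u hu (sub_decouple hVR (subset_refl R) (subset_refl R) huV hpq2V hsub).2
        · rw [hqa] at hsub
          -- facts: a not inside pp.2, pq.2; not (S' ⊆ S and a ⊆ p'.1)
          rcases hMa with hMa | ⟨hS'B, p'', hp'', rfl⟩
          · have key : ∀ p' ∈ L, ¬ a ⊆ p'.1 := hM S' a hMa
            rcases List.mem_append.1 hp with h | h
            · rcases List.mem_append.1 h with h | h
              · simp only [List.mem_singleton] at h
                subst h
                exact key pp hppL ((sub_decouple hVR (subset_refl R) hS'R haV hpp2V hsub).2.trans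
                  (hL.sub pp hppL))
              · obtain ⟨p', hp', rfl⟩ := List.mem_map.1 h
                exact key p' (hmidinf.subset hp') (sub_decouple hVR hSR hS'R haV
                  (hLV p' (hmidinf.subset hp')).1 hsub).2
            · simp only [List.mem_singleton] at h
              subst h
              exact key pq hpqL ((sub_decouple hVR (subset_refl R) hS'R haV hpq2V hsub).2.trans
                  (hL.sub pq hpqL))
          · -- a = p''.2 with p'' ∈ L'
            have hLpw := hL.pw
            rw [hLeq] at hLpw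
            have hIL' := (List.pairwise_append.1 hLpw).2.2
            have hL'J := (List.pairwise_append.1 (List.pairwise_append.1 hLpw).2.1).2.2
            rcases List.mem_append.1 hp with h | h
            · rcases List.mem_append.1 h with h | h
              · simp only [List.mem_singleton] at h
                subst h
                have h1 := (sub_decouple hVR (subset_refl R) hS'R haV hpp2V hsub).2
                exact hIL' pp hppI p'' (List.mem_append_left _ hp'')
                  (h1.trans (hL.sub pp hppL))
              · obtain ⟨p', hp', rfl⟩ := List.mem_map.1 h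
                exact (List.pairwise_cons.1 hBpw).1 S' hS'B (sub_decouple hVR hSR hS'R haV
                  (hLV p' (hmidinf.subset hp')).1 hsub).1
            · simp only [List.mem_singleton] at h
              subst h
              have h1 := (sub_decouple hVR (subset_refl R) hS'R haV hpq2V hsub).2
              have h2 : p''.2 = pq.2 := by
                apply Finset.eq_of_subset_of_card_le h1
                rw [(hLV pq hpqL).2, (hLV p'' (hL'inf.subset hp'')).2]
              exact hL'J p'' hp'' pq hpqJ (h2 ▸ hL.sub p'' (hL'inf.subset hp''))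
    · intro p hp
      simp only [List.append_assoc, List.singleton_append, List.cons_append, List.nil_append,
        List.head?_cons, Option.mem_some_iff] at hp
      subst hp
      rfl
    · intro q hq
      rcases List.mem_append.1 hq with h | h
      · rcases List.mem_append.1 h with h | h
        · rcases List.mem_append.1 h with h | h
          · simp only [List.mem_singleton] at h
            subst h
            exact Or.inr ⟨S, pp.2, Or.inr ⟨by simp, pp, hppL, rfl⟩, hSR, hpp2V, rfl⟩
          · obtain ⟨p', hp', rfl⟩ := List.mem_map.1 h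
            have hp'L := hmidinf.subset hp'
            exact Or.inr ⟨S, p'.2, Or.inr ⟨by simp, p', hp'L, rfl⟩, hSR,
              (hL.sub p' hp'L).trans (hLV p' hp'L).1, rfl⟩
        · simp only [List.mem_singleton] at h
          subst h
          exact Or.inl ⟨t, mem_insert_self _ _, rfl⟩
      · rcases hT'.mem q h with ⟨u, hu, hqu⟩ | ⟨S', a, hMa, hS'R, haV, hqa⟩
        · exact Or.inl ⟨u, mem_insert_of_mem hu, hqu⟩
        · refine Or.inr ⟨S', a, ?_, hS'R, haV, hqa⟩
          rcases hMa with hMa | ⟨hS'B, p'', hp'', rfl⟩
          · exact Or.inl hMa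
          · exact Or.inr ⟨by simp [hS'B], p'', hL'inf.subset hp'', rfl⟩
    · have := card_insert_le t T'
      rw [List.length_cons]
      omega
    · have hmidlen : L'.length ≤ mid.length := by
        rw [hmid]; simp only [List.length_append]; omega
      simp only [List.length_append, List.length_map, List.length_cons, List.length_nil]
      have e1 : L'.length - 2 * K * B.length = L.length - 2 * K * (B.length + 1) := by
        rw [hL'len]
        have : 2 * K * (B.length + 1) = 2 * K + 2 * K * B.length := by ring
        omega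
      rw [e1] at hlen'
      have e2 : L.length - 2 * K * (B.length + 1) ≤ L'.length := by
        rw [hL'len]
        have : 2 * K * (B.length + 1) = 2 * K + 2 * K * B.length := by ring
        omega
      have e3 : (B.length + 1) * (L.length - 2 * K * (B.length + 1)) =
          B.length * (L.length - 2 * K * (B.length + 1)) + (L.length - 2 * K * (B.length + 1)) := by
        ring
      omega

end Pool.Agent.Lib.MP_ad4d1c_co_h48
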