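import Mathlib
import Pool.Agent.Lib.MP_ad4d1c_co_h48.Assembly

set_option autoImplicit false

namespace Pool.Agent.Lib.MP_ad4d1c_co_h48

open Finset

variable {α : Type*} [DecidableEq α]

theorem outer (V R : Finset α) (hVR : Disjoint V R) (n s K κ : ℕ) (hV : V.card = n + 1)
    (hs : s ≤ V.card) (B : List (Finset α))
    (hB : ∀ S ∈ B, S ⊆ R ∧ S ≠ R) (hBpw : B.Pairwise (fun S S' => ¬ S' ⊆ S))
    (hκ : (bad2 V V s).card ≤ κ)
    (hrich : ∀ j, 2 * K * B.length ≤ n.choose j → ∀ c, c ⊆ V → c.card = j →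
      (bad2 V c s).card ≤ κ)
    (hK : (B.length * (n + 1) + 2) * 2 ^ (V.card - s) + κ < K)
    (L : ℕ → List (Finset α × Finset α)) (hlen : ∀ i, (L i).length = n.choose i)
    (hsub : ∀ i, ∀ p ∈ L i, p.1 ⊆ V ∧ p.1.card = i + 1 ∧ p.2.card = i)
    (hadm : ∀ i, Adm (L i)) (hcross : ∀ i, ∀ p ∈ L i, ∀ q ∈ L (i + 1), q.2 ≠ p.1) :
    ∀ k, k ≤ n + 1 → ∃ (Λ : List (Finset α × Finset α)) (T : Finset (Finset α)) (c : Finset α),
      Tail V R s Λ T c (fun _ a => ∃ j, n + 1 - k ≤ j ∧ ∃ p ∈ L j, a = p.2) ∧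
      (bad2 V c s).card ≤ κ ∧ T.card ≤ 1 + B.length * k ∧
      1 + ∑ i ∈ range k, B.length * (n.choose i - 2 * K * B.length) ≤ Λ.length := by
  intro k
  induction k with
  | zero =>
    intro _
    refine ⟨[(R ∪ V, R ∪ V)], {V}, V, ⟨⟨by simp, by simp, by simp⟩, ?_, subset_refl V, ?_, ?_⟩,
      hκ, by simp, by simp⟩
    · intro p hp
      simp only [List.head?_cons, Option.mem_some_iff] at hp
      subst hp
      rfl
    · intro t ht
      rw [mem_singleton] at ht
      subst ht
      exact ⟨subset_refl _, hs⟩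
    · intro q hq
      simp only [List.mem_singleton] at hq
      subst hq
      exact Or.inl ⟨V, mem_singleton_self _, rfl⟩
  | succ k ih =>
    intro hk
    obtain ⟨Λ0, T0, c0, hT, hc, hcard, hlen0⟩ := ih (by omega)
    set j := n - k with hj
    have hjk : n + 1 - (k + 1) = j := by omega
    have hjk' : n + 1 - k = j + 1 := by omega
    have hchoose : n.choose k = n.choose j := by
      rw [hj, Nat.choose_symm (by omega)]
    by_cases hW : 2 * K * B.length ≤ (L j).length
    · obtain ⟨Λ, T, c, hT', hc', hcard', hlen'⟩ := inner V R hVR s K κ j B hB hBpw (L j) (hadm j)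
        (fun p hp => ⟨(hsub j p hp).1, (hsub j p hp).2.2⟩) hW
        (fun p hp => hrich j (by rw [← hlen]; exact hW) p.2
          (((hadm j).sub p hp).trans (hsub j p hp).1) (hsub j p hp).2.2)
        Λ0 T0 c0 _ hT hc (by
          refine lt_of_le_of_lt ?_ hK
          have h1 : T0.card + B.length + 1 ≤ B.length * (n + 1) + 2 := by
            have h2 : B.length * k + B.length ≤ B.length * (n + 1) := by
              calc B.length * k + B.length = B.length * (k + 1) := by ring
                _ ≤ B.length * (n + 1) := Nat.mul_le_mul_left _ hk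
            omega
          gcongr) (by
          rintro S a ⟨j', hj', p', hp', rfl⟩ p hp hsubs
          have h1 := (hsub j' p' hp').2.2
          have h2 := (hsub j p hp).2.1
          have h3 := card_le_card hsubs
          have h4 : j' = j + 1 := by omega
          subst h4
          exact hcross j p hp p' hp' (Finset.eq_of_subset_of_card_le hsubs (by omega)))
      refine ⟨Λ, T, c, ⟨hT'.adm, hT'.head, hT'.cV, hT'.tV, ?_⟩, hc', ?_, ?_⟩
      · intro q hq
        rcases hT'.mem q hq with h | ⟨S, a, hM, h1, h2, h3⟩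
        · exact Or.inl h
        · refine Or.inr ⟨S, a, ?_, h1, h2, h3⟩
          rcases hM with ⟨j', hj', p', hp', rfl⟩ | ⟨hS, p, hp, rfl⟩
          · exact ⟨j', by omega, p', hp', rfl⟩
          · exact ⟨j, by omega, p, hp, rfl⟩
      · calc T.card ≤ T0.card + B.length := hcard'
          _ ≤ 1 + B.length * k + B.length := by omega
          _ = 1 + B.length * (k + 1) := by ring
      · rw [sum_range_succ, hchoose, ← hlen j]
        omega
    · refine ⟨Λ0, T0, c0, ⟨hT.adm, hT.head, hT.cV, hT.tV, ?_⟩, hc, ?_, ?_⟩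
      · intro q hq
        rcases hT.mem q hq with h | ⟨S, a, ⟨j', hj', hp⟩, h1, h2, h3⟩
        · exact Or.inl h
        · exact Or.inr ⟨S, a, ⟨j', by omega, hp⟩, h1, h2, h3⟩
      · have : B.length * k ≤ B.length * (k + 1) := Nat.mul_le_mul_left _ (by omega)
        omega
      · rw [sum_range_succ, hchoose, ← hlen j]
        have : (L j).length - 2 * K * B.length = 0 := by omega
        rw [this, mul_zero, add_zero]
        exact hlen0

/-- From an admissible list of pairs to an admissible sequence of sets. -/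
theorem adm_to_seq (Λ : List (Finset α × Finset α)) (h : Adm Λ) (h0 : ∀ p ∈ Λ.head?, p.2 = ∅) :
    ∃ B : Fin Λ.length → Finset α,
      Function.Injective B ∧
      (∀ i : Fin Λ.length, i.val = 0 → B i = ∅) ∧
      (∀ i j : Fin Λ.length, j.val = i.val + 1 → ¬ (B j ⊆ B i)) ∧
      (∀ i k j : Fin Λ.length, k.val = i.val + 1 → i.val + 2 ≤ j.val → ¬ (B j ⊆ B i ∪ B k)) := by
  have hpw : ∀ i j : Fin Λ.length, i < j → ¬ (Λ.get j).2 ⊆ (Λ.get i).1 :=
    fun i j hij => List.pairwise_iff_get.1 h.pw i j hij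
  have hsub : ∀ i : Fin Λ.length, (Λ.get i).2 ⊆ (Λ.get i).1 := fun i => h.sub _ (List.get_mem Λ i)
  have hpw2 : ∀ i j : Fin Λ.length, i < j → ¬ (Λ.get j).2 ⊆ (Λ.get i).2 :=
    fun i j hij hs => hpw i j hij (hs.trans (hsub i))
  have hch : ∀ i k : Fin Λ.length, k.val = i.val + 1 → (Λ.get i).2 ⊆ (Λ.get k).1 := by
    intro i k hik
    have := List.isChain_iff_getElem.1 h.chain i.val (by have := k.2; omega)
    simp only [List.get_eq_getElem]
    have e : Λ[k.val] = Λ[i.val + 1]'(by have := k.2; omega) := by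
      congr 1
    rw [e]
    exact this
  refine ⟨fun i => (Λ.get i).2, ?_, ?_, ?_, ?_⟩
  · intro i j hij
    simp only at hij
    rcases lt_trichotomy i j with h1 | h1 | h1
    · exact absurd (hij ▸ subset_refl _) (hpw2 i j h1)
    · exact h1
    · exact absurd (hij ▸ subset_refl _) (hpw2 j i h1)
  · intro i hi
    apply h0
    have hne : Λ ≠ [] := by
      intro he
      have := i.2
      simp [he] at this
    rw [List.head?_eq_getElem?]
    simp only [List.get_eq_getElem, hi]
    rw [Option.mem_def, List.getElem?_eq_getElem]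
  · intro i j hij
    exact hpw2 i j (by rw [Fin.lt_def]; omega)
  · intro i k j hik hij hsubs
    apply hpw k j (by rw [Fin.lt_def]; omega)
    exact hsubs.trans (union_subset (hch i k hik) (hsub k))

/-- A linear extension of the proper subsets of `R`. -/
theorem exists_linear_extension (R : Finset α) :
    ∃ B : List (Finset α), B.length = 2 ^ R.card - 1 ∧ (∀ S ∈ B, S ⊆ R ∧ S ≠ R) ∧
      B.Pairwise (fun S S' => ¬ S' ⊆ S) := by
  classical
  let r : Finset α → Finset α → Prop := fun a b => a.card ≤ b.card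
  have hdec : DecidableRel r := fun a b => Nat.decLe _ _
  have : Std.Total r := ⟨fun a b => le_total _ _⟩
  have : IsTrans (Finset α) r := ⟨fun a b c h1 h2 => le_trans h1 h2⟩
  refine ⟨List.insertionSort r (R.ssubsets.toList), ?_, ?_, ?_⟩
  · rw [List.length_insertionSort, Finset.length_toList, Finset.ssubsets,
      Finset.card_erase_of_mem (Finset.mem_powerset_self R), Finset.card_powerset]
  · intro S hS
    rw [List.mem_insertionSort, Finset.mem_toList, Finset.mem_ssubsets] at hS
    exact ⟨hS.1, fun h => hS.2 (h ▸ subset_refl _)⟩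
  · have h1 : (List.insertionSort r (R.ssubsets.toList)).Pairwise r :=
      List.pairwise_insertionSort r _
    have h2 : (List.insertionSort r (R.ssubsets.toList)).Nodup :=
      (List.perm_insertionSort r _).nodup_iff.2 (Finset.nodup_toList _)
    refine (h1.and h2).imp ?_
    rintro S S' ⟨h3, h4⟩ hsub
    exact h4 (Finset.eq_of_subset_of_card_le hsub h3).symm

theorem main_list (V R : Finset α) (hVR : Disjoint V R) (n s K κ : ℕ) (hV : V.card = n + 1)
    (hR : R.Nonempty) (hs : s ≤ V.card)
    (hκ : (bad2 V V s).card ≤ κ)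
    (hrich : ∀ j, 2 * K * (2 ^ R.card - 1) ≤ n.choose j → ∀ c, c ⊆ V → c.card = j →
      (bad2 V c s).card ≤ κ)
    (hK : ((2 ^ R.card - 1) * (n + 1) + 2) * 2 ^ (V.card - s) + κ < K) :
    ∃ Λ : List (Finset α × Finset α), Adm Λ ∧ (∀ p ∈ Λ.head?, p.2 = ∅) ∧
      2 + ∑ i ∈ range n, (2 ^ R.card - 1) * (n.choose i - 2 * K * (2 ^ R.card - 1)) ≤ Λ.length := by
  obtain ⟨B, hBlen, hB, hBpw⟩ := exists_linear_extension R
  obtain ⟨l', L, hperm, hlen, hsub, hadm, -, -, hcross⟩ := exists_family n V.toList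
    (by rw [Finset.length_toList, hV]) (Finset.nodup_toList V)
  rw [Finset.toList_toFinset] at hsub
  rw [← hBlen] at hrich hK ⊢
  obtain ⟨Λ, T, c, hT, -, -, hlen2⟩ := outer V R hVR n s K κ hV hs B hB hBpw hκ hrich hK L hlen
    hsub hadm hcross n (by omega)
  have hne : ∀ q ∈ Λ, q.2 ≠ ∅ := by
    intro q hq he
    rcases hT.mem q hq with ⟨t, -, h⟩ | ⟨S, a, ⟨j, hj, p, hp, rfl⟩, -, -, h⟩
    · rw [he] at h
      obtain ⟨x, hx⟩ := hR
      have : x ∈ R ∪ t := mem_union_left _ hx
      rw [← h] at this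
      simp at this
    · rw [he] at h
      have h1 : p.2 = ∅ := by
        rw [eq_comm, union_eq_empty] at h
        exact h.2
      have h2 := (hsub j p hp).2.2
      rw [h1, card_empty] at h2
      omega
  refine ⟨(∅, ∅) :: Λ, ⟨?_, ?_, ?_⟩, ?_, ?_⟩
  · intro p hp
    rcases List.mem_cons.1 hp with rfl | h
    · simp
    · exact hT.adm.sub p h
  · rw [List.isChain_cons]
    exact ⟨fun y _ => empty_subset _, hT.adm.chain⟩
  · rw [List.pairwise_cons]
    refine ⟨fun q hq h => hne q hq (subset_empty.1 h), hT.adm.pw⟩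
  · intro p hp
    simp only [List.head?_cons, Option.mem_some_iff] at hp
    subst hp
    rfl
  · rw [List.length_cons]
    omega

end Pool.Agent.Lib.MP_ad4d1c_co_h48
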