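import Mathlib
import Pool.Agent.Lib.MP_ad4d1c_co_h48.Outer

set_option autoImplicit false

namespace Pool.Agent.Lib.MP_ad4d1c_co_h48

open Finset

theorem three_pow_mul_le (s j : ℕ) (h : 5 * s ≤ j) : 3 ^ j * 4 ^ s ≤ 4 ^ j := by
  obtain ⟨t, rfl⟩ := Nat.exists_eq_add_of_le h
  calc 3 ^ (5 * s + t) * 4 ^ s = (3 ^ 5 * 4) ^ s * 3 ^ t := by
        rw [pow_add, pow_mul, mul_pow]; ring
    _ ≤ (4 ^ 5) ^ s * 4 ^ t := by
        apply Nat.mul_le_mul
        · exact Nat.pow_le_pow_left (by norm_num) s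
        · exact Nat.pow_le_pow_left (by norm_num) t
    _ = 4 ^ (5 * s + t) := by rw [pow_add, pow_mul]

theorem choose_mul_two_pow_le (n j : ℕ) (hj : j ≤ n) : n.choose j * 2 ^ (n - j) ≤ 3 ^ n := by
  have h : (1 + 2) ^ n = ∑ m ∈ range (n + 1), 1 ^ m * 2 ^ (n - m) * n.choose m := add_pow 1 2 n
  have h3 : (3 : ℕ) ^ n = ∑ m ∈ range (n + 1), 1 ^ m * 2 ^ (n - m) * n.choose m := by
    rw [← h]
  rw [h3]
  calc n.choose j * 2 ^ (n - j) = 1 ^ j * 2 ^ (n - j) * n.choose j := by ring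
    _ ≤ _ := Finset.single_le_sum (f := fun m => 1 ^ m * 2 ^ (n - m) * n.choose m)
      (fun i _ => Nat.zero_le _) (by rw [mem_range]; omega)

theorem choose_lt_of_lt (n s j : ℕ) (hj : j < 5 * s) (hn : 15 * s ≤ n) :
    n.choose j < 2 ^ (n + 1 - s) := by
  by_contra hcon
  push Not at hcon
  have hjn : j ≤ n := by omega
  have h1 := choose_mul_two_pow_le n j hjn
  have h2 : 2 ^ (n + 1 - s) * 2 ^ (n - j) ≤ 3 ^ n := le_trans (Nat.mul_le_mul_right _ hcon) h1
  have h3 := three_pow_mul_le (3 * s) n (by omega)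
  have h4 : 2 ^ (n + 1 - s) * 2 ^ (n - j) * 4 ^ (3 * s) ≤ 4 ^ n :=
    le_trans (Nat.mul_le_mul_right _ h2) h3
  have h5 : 2 ^ (n + 1 - s) * 2 ^ (n - j) * 4 ^ (3 * s) =
      2 ^ ((n + 1 - s) + (n - j) + 2 * (3 * s)) := by
    rw [pow_add, pow_add, pow_mul 2 2 (3 * s)]
    norm_num
  have h6 : (4 : ℕ) ^ n = 2 ^ (2 * n) := by
    rw [pow_mul]; norm_num
  rw [h5, h6] at h4
  have h7 := (Nat.pow_le_pow_iff_right (by norm_num : 1 < 2)).1 h4
  omega

variable {α : Type*} [DecidableEq α]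

theorem small_subsets (c : Finset α) (s : ℕ) (hs : s ≤ c.card) :
    (c.powerset.filter (fun u => u.card < s)).card * 2 ^ (c.card - s) ≤ 3 ^ c.card := by
  have h : ∑ t ∈ c.powerset, (1 : ℕ) ^ t.card * 2 ^ (c.card - t.card) = (1 + 2) ^ c.card :=
    Finset.sum_pow_mul_eq_add_pow 1 2 c
  have h3 : (3 : ℕ) ^ c.card = ∑ t ∈ c.powerset, 1 ^ t.card * 2 ^ (c.card - t.card) := by
    rw [h]
  rw [h3]
  calc (c.powerset.filter (fun u => u.card < s)).card * 2 ^ (c.card - s)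
      = ∑ t ∈ c.powerset.filter (fun u => u.card < s), 2 ^ (c.card - s) := by
        rw [sum_const, smul_eq_mul]
    _ ≤ ∑ t ∈ c.powerset.filter (fun u => u.card < s), 1 ^ t.card * 2 ^ (c.card - t.card) := by
        apply sum_le_sum
        intro t ht
        rw [mem_filter] at ht
        rw [one_pow, one_mul]
        exact Nat.pow_le_pow_right (by norm_num) (by omega)
    _ ≤ _ := sum_le_sum_of_subset (filter_subset _ _)

theorem card_bad2_le (V c : Finset α) (s : ℕ) (hc : c ⊆ V) :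
    (bad2 V c s).card ≤
      (c.powerset.filter (fun u => u.card < s)).card * 2 ^ (V.card - c.card) := by
  have h1 : ((c.powerset.filter (fun u => u.card < s)) ×ˢ (V \ c).powerset).card =
      (c.powerset.filter (fun u => u.card < s)).card * 2 ^ (V.card - c.card) := by
    rw [card_product, card_powerset, card_sdiff_of_subset hc]
  rw [← h1]
  apply card_le_card_of_injOn (fun a => (a ∩ c, a \ c))
  · intro a ha
    rw [Finset.mem_coe, bad2, mem_filter, mem_powerset] at ha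
    simp only [Finset.coe_product, Set.mem_prod, Finset.mem_coe, mem_filter, mem_powerset]
    exact ⟨⟨inter_subset_right, ha.2⟩, sdiff_subset_sdiff ha.1 (subset_refl _)⟩
  · intro a _ b _ hab
    simp only [Prod.mk.injEq] at hab
    rw [← Finset.sdiff_union_inter a c, ← Finset.sdiff_union_inter b c, hab.1, hab.2]

theorem card_bad2_le' (V c : Finset α) (s : ℕ) (hc : c ⊆ V) (hs : 5 * s ≤ c.card) :
    (bad2 V c s).card ≤ 2 ^ (V.card - s) := by
  have hcV := card_le_card hc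
  have h1 := card_bad2_le V c s hc
  have h2 := small_subsets c s (by omega)
  have h3 := three_pow_mul_le s c.card hs
  have h4 : (bad2 V c s).card * 2 ^ (c.card - s) * 4 ^ s ≤
      2 ^ (V.card - s) * 2 ^ (c.card - s) * 4 ^ s := by
    calc (bad2 V c s).card * 2 ^ (c.card - s) * 4 ^ s
        ≤ ((c.powerset.filter (fun u => u.card < s)).card * 2 ^ (V.card - c.card)) *
            2 ^ (c.card - s) * 4 ^ s := by gcongr
      _ = ((c.powerset.filter (fun u => u.card < s)).card * 2 ^ (c.card - s)) *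
            2 ^ (V.card - c.card) * 4 ^ s := by ring
      _ ≤ 3 ^ c.card * 2 ^ (V.card - c.card) * 4 ^ s := by gcongr
      _ = (3 ^ c.card * 4 ^ s) * 2 ^ (V.card - c.card) := by ring
      _ ≤ 4 ^ c.card * 2 ^ (V.card - c.card) := by gcongr
      _ = 2 ^ (2 * c.card + (V.card - c.card)) := by
          rw [pow_add, pow_mul]; norm_num
      _ = 2 ^ ((V.card - s) + (c.card - s) + 2 * s) := by
          congr 1; omega
      _ = 2 ^ (V.card - s) * 2 ^ (c.card - s) * 4 ^ s := by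
          rw [pow_add, pow_add, pow_mul]; norm_num
  have h5 : 0 < 2 ^ (c.card - s) * 4 ^ s := by positivity
  rw [mul_assoc, mul_assoc] at h4
  exact Nat.le_of_mul_le_mul_right h4 h5

/-- numeric core -/
theorem numeric (m r : ℕ) (hm : 1 ≤ m) (hr : 60 * m + 1 ≤ r) (hexp : 8 * r * (r + 4) ≤ 2 ^ m)
    (len K : ℕ) (hK : K = ((2 ^ m - 1) * r + 4) * 2 ^ (r - 4 * m))
    (hlen : 2 + ∑ i ∈ range (r - 1), (2 ^ m - 1) * ((r - 1).choose i - 2 * K * (2 ^ m - 1)) ≤ len) :
    2 ^ (r + m - 1) ≤ len + 2 ^ r := by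
  obtain ⟨n, rfl⟩ : ∃ n, r = n + 1 := ⟨r - 1, by omega⟩
  rw [Nat.add_sub_cancel] at hlen
  set N := 2 ^ m - 1 with hN
  have hN1 : 2 ^ m = N + 1 := by
    have : 1 ≤ 2 ^ m := Nat.one_le_two_pow
    omega
  set D := 2 * K * N with hD
  have hsum : ∑ i ∈ range (n + 1), n.choose i = 2 ^ n := Nat.sum_range_choose n
  rw [sum_range_succ, Nat.choose_self] at hsum
  have h1 : N * ∑ i ∈ range n, n.choose i ≤ (∑ i ∈ range n, N * (n.choose i - D)) + n * (N * D) := by
    rw [mul_sum]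
    calc ∑ i ∈ range n, N * n.choose i ≤ ∑ i ∈ range n, (N * (n.choose i - D) + N * D) := by
          apply sum_le_sum
          intro i _
          rw [← mul_add]
          apply Nat.mul_le_mul_left
          omega
      _ = (∑ i ∈ range n, N * (n.choose i - D)) + n * (N * D) := by
          rw [sum_add_distrib, sum_const, card_range, smul_eq_mul]
  have h2 : N * ∑ i ∈ range n, n.choose i + N = N * 2 ^ n := by
    rw [← hsum]; ring
  have e1 : 2 ^ (n + 1 + m - 1) = N * 2 ^ n + 2 ^ n := by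
    have : n + 1 + m - 1 = m + n := by omega
    rw [this, pow_add, hN1]; ring
  have e2 : 2 ^ (n + 1) = 2 * 2 ^ n := by rw [pow_succ]; ring
  -- main estimate
  have hNle : N ≤ 2 ^ m := by omega
  have key : n * (N * D) ≤ 2 ^ n / 2 := by
    have hKle : K ≤ 2 ^ m * (n + 1 + 4) * 2 ^ (n + 1 - 4 * m) := by
      rw [hK]
      apply Nat.mul_le_mul_right
      have h4 : 4 ≤ 4 * 2 ^ m := by
        have : 1 ≤ 2 ^ m := Nat.one_le_two_pow
        omega
      calc N * (n + 1) + 4 ≤ 2 ^ m * (n + 1) + 4 * 2 ^ m :=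
            Nat.add_le_add (Nat.mul_le_mul_right _ hNle) h4
        _ = 2 ^ m * (n + 1 + 4) := by ring
    have e3 : n * (N * D) ≤ (n + 1) * (2 ^ m * (2 * (2 ^ m * (n + 1 + 4) * 2 ^ (n + 1 - 4 * m)) * 2 ^ m)) := by
      rw [hD]
      gcongr
      omega
    have e4 : (n + 1) * (2 ^ m * (2 * (2 ^ m * (n + 1 + 4) * 2 ^ (n + 1 - 4 * m)) * 2 ^ m)) * 4 =
        (8 * (n + 1) * (n + 1 + 4)) * 2 ^ (3 * m + (n + 1 - 4 * m)) := by
      rw [pow_add, show 3 * m = m + m + m by ring, pow_add, pow_add]; ring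
    have e5 : (8 * (n + 1) * (n + 1 + 4)) * 2 ^ (3 * m + (n + 1 - 4 * m)) ≤ 2 ^ (n + 1) := by
      calc (8 * (n + 1) * (n + 1 + 4)) * 2 ^ (3 * m + (n + 1 - 4 * m))
          ≤ 2 ^ m * 2 ^ (3 * m + (n + 1 - 4 * m)) := Nat.mul_le_mul_right _ hexp
        _ = 2 ^ (n + 1) := by
            rw [← pow_add]; congr 1; omega
    have e6 : n * (N * D) * 4 ≤ 2 * 2 ^ n := by
      calc n * (N * D) * 4 ≤ _ := Nat.mul_le_mul_right 4 e3
        _ ≤ _ := e4.le
        _ ≤ 2 ^ (n + 1) := e5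
        _ = 2 * 2 ^ n := e2
    omega
  have hNn : N ≤ 2 ^ n / 2 := by
    have h5 : 2 ^ (m + 1) ≤ 2 ^ n := Nat.pow_le_pow_right (by norm_num) (by omega)
    rw [pow_succ] at h5
    omega
  rw [e1, e2]
  omega

theorem final_card (m r : ℕ) (hm : 1 ≤ m) (hr : 60 * m + 1 ≤ r) (hexp : 8 * r * (r + 4) ≤ 2 ^ m)
    (V R : Finset α) (hVR : Disjoint V R) (hV : V.card = r) (hR : R.card = m) :
    ∃ Λ : List (Finset α × Finset α), Adm Λ ∧ (∀ p ∈ Λ.head?, p.2 = ∅) ∧
      2 ^ (r + m - 1) ≤ Λ.length + 2 ^ r := by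
  obtain ⟨n, rfl⟩ : ∃ n, r = n + 1 := ⟨r - 1, by omega⟩
  set K := ((2 ^ m - 1) * (n + 1) + 4) * 2 ^ (n + 1 - 4 * m) with hKdef
  have hpos : 0 < 2 ^ (n + 1 - 4 * m) := by positivity
  have hN : 1 ≤ 2 ^ m - 1 := by
    have : 2 ^ 1 ≤ 2 ^ m := Nat.pow_le_pow_right (by norm_num) hm
    omega
  obtain ⟨Λ, h1, h2, h3⟩ := main_list V R hVR n (4 * m) K (2 ^ (V.card - 4 * m)) hV
    (by rw [← Finset.card_pos]; omega) (by omega)
    (card_bad2_le' V V (4 * m) (subset_refl V) (by omega))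
    (by
      intro j hj c hc hcj
      apply card_bad2_le' V c (4 * m) hc
      by_contra hcon
      push Not at hcon
      have h4 := choose_lt_of_lt n (4 * m) j (by omega) (by omega)
      rw [hR] at hj
      have h5 : 2 ^ (n + 1 - 4 * m) ≤ K := by
        rw [hKdef]
        exact Nat.le_mul_of_pos_left _ (by omega)
      have h6 : K ≤ 2 * K * (2 ^ m - 1) := by
        calc K ≤ 2 * K := by omega
          _ = 2 * K * 1 := by ring
          _ ≤ 2 * K * (2 ^ m - 1) := Nat.mul_le_mul_left _ hN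
      omega)
    (by
      rw [hR, hV]
      rw [hKdef]
      have : ((2 ^ m - 1) * (n + 1) + 4) * 2 ^ (n + 1 - 4 * m) =
        ((2 ^ m - 1) * (n + 1) + 2) * 2 ^ (n + 1 - 4 * m) + 2 ^ (n + 1 - 4 * m) +
          2 ^ (n + 1 - 4 * m) := by ring
      omega)
  refine ⟨Λ, h1, h2, ?_⟩
  apply numeric m (n + 1) hm hr hexp Λ.length K hKdef
  rw [hR] at h3
  simpa using h3

theorem exp_bound (m : ℕ) (hm : 26 ≤ m) : 8 * (100 * m + 99) * (100 * m + 103) ≤ 2 ^ m := by
  induction m, hm using Nat.le_induction with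
  | base => norm_num
  | succ k hk ih =>
    rw [pow_succ]
    nlinarith

end Pool.Agent.Lib.MP_ad4d1c_co_h48
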