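import Mathlib
import Pool.Agent.Lib.MP_ad4d1c_co_h48.Numeric

set_option autoImplicit false

/-! Lower bound `f(n) ≥ 2^(n-1) - 2^(n - n/100)` for the Felsner-Trotter problem.

Idea. Split `[n]` into a set `R` of `m = n / 100` elements and the rest `V`. For every level `j` the
recursion of Savage and Winkler gives an order-preserving zigzag between levels `j` and `j+1` of
`V` with `choose (|V|-1) j` lower sets, such that the upper sets of level `j` are disjoint from
the lower sets of level `j+1`. For `j = 1, 2, ...` and for every proper subset `S` of `R` (in a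
linear extension) we run through the shifted zigzag `S ∪ _`, cut a little at both ends. To get from
the end `S ∪ a` of one run to the start `S' ∪ a'` of the next one we insert the single set
`R ∪ T` with `T ⊆ a ∩ a'`. A counting argument, going backwards in time, shows that the cut points
`a, a'` and the sets `T` can be chosen so that no later set lies in one of these unions. -/

namespace Pool.Agent.Lib.MP_ad4d1c_co_h48.AsymptoticallySharpOld

theorem result :
    ∀ n : ℕ, 2600 ≤ n →
      ∃ s : ℕ, 2 ^ (n - 1) ≤ s + 2 ^ (n - n / 100) ∧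
        ∃ B : Fin s → Finset (Fin n),
          Function.Injective B ∧
          (∀ i : Fin s, i.val = 0 → B i = ∅) ∧
          (∀ i j : Fin s, j.val = i.val + 1 → ¬ (B j ⊆ B i)) ∧
          (∀ i k j : Fin s, k.val = i.val + 1 → i.val + 2 ≤ j.val →
            ¬ (B j ⊆ B i ∪ B k)) := by
  intro n hn
  obtain ⟨R, hR⟩ : ∃ R : Finset (Fin n), R.card = n / 100 := by
    obtain ⟨R, -, hR⟩ := Finset.exists_subset_card_eq (s := (Finset.univ : Finset (Fin n)))
      (n := n / 100) (by rw [Finset.card_univ, Fintype.card_fin]; omega)
    exact ⟨R, hR⟩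
  have hV : (Finset.univ \ R).card = n - n / 100 := by
    rw [Finset.card_sdiff_of_subset (Finset.subset_univ R), Finset.card_univ, Fintype.card_fin, hR]
  have hexp := Lib.MP_ad4d1c_co_h48.exp_bound (n / 100) (by omega)
  obtain ⟨Λ, h1, h2, h3⟩ := Lib.MP_ad4d1c_co_h48.final_card (n / 100) (n - n / 100) (by omega)
    (by omega)
    (by
      refine le_trans ?_ hexp
      apply Nat.mul_le_mul
      · apply Nat.mul_le_mul_left
        omega
      · omega)
    (Finset.univ \ R) R Finset.sdiff_disjoint hV hR
  refine ⟨Λ.length, ?_, Lib.MP_ad4d1c_co_h48.adm_to_seq Λ h1 h2⟩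
  have e : n - n / 100 + n / 100 - 1 = n - 1 := by omega
  rw [e] at h3
  exact h3

end Pool.Agent.Lib.MP_ad4d1c_co_h48.AsymptoticallySharpOld
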