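import Pool.Agent.Lib.MP_ad4d1c_co_h38.ExSmall
import Pool.Agent.Lib.MP_ad4d1c_co_h51.ExWF
import Pool.Agent.Lib.MP_ad4d1c_co_h64.ExFIN
import Pool.Agent.Lib.MP_ad4d1c_co_h70.ExVS

set_option autoImplicit false

/-!
# The exact Felsner–Trotter theorem: assembly
-/

namespace Pool.Agent.Lib.MP_ad4d1c_co_h48.Ex

open Pool.Agent.Lib.MP_ad4d1c_co_h51

theorem good_large (n : ℕ) (h : 13 ≤ n) : Good n :=
  good_large_of wf_exists vs_top_even vs_top_odd n h

/-- Full admissible sequences exist for every `n ≥ 1`. -/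
theorem good_all (n : ℕ) (h : 1 ≤ n) : Good n := by
  rcases Nat.lt_or_ge n 13 with h' | h'
  · exact good_small n h (by omega)
  · exact good_large n h'

end Pool.Agent.Lib.MP_ad4d1c_co_h48.Ex
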