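import Pool.Agent.Lib.MP_ad4d1c_co_h48.OrdDef

set_option autoImplicit false

/-!
# From a full sequence to the Felsner–Trotter ordering of the hypercube
-/

namespace Pool.Agent.Lib.MP_ad4d1c_co_h48.Ord

open Finset Pool.Agent.Lib.MP_ad4d1c_co_h48 Pool.Agent.Lib.MP_ad4d1c_co_h51

/-- the sets of a pair, the peak first -/
def blk (p : Finset ℕ × Finset ℕ) : List (Finset ℕ) := if p.1 = p.2 then [p.2] else [p.1, p.2]

/-- all sets of a list of pairs -/
def flat (L : List (Finset ℕ × Finset ℕ)) : List (Finset ℕ) := L.flatMap blk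

theorem flat_cons (p : Finset ℕ × Finset ℕ) (L : List (Finset ℕ × Finset ℕ)) :
    flat (p :: L) = blk p ++ flat L := by
  simp [flat]

theorem mem_blk {p : Finset ℕ × Finset ℕ} {X : Finset ℕ} (hp : p.2 ⊆ p.1) (h : X ∈ blk p) :
    p.2 ⊆ X ∧ X ⊆ p.1 := by
  unfold blk at h
  split_ifs at h
  · rw [List.mem_singleton] at h
    subst h
    exact ⟨subset_rfl, hp⟩
  · rcases List.mem_cons.1 h with h | h
    · subst h
      exact ⟨hp, subset_rfl⟩
    · rw [List.mem_singleton] at h
      subst h
      exact ⟨subset_rfl, hp⟩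

theorem blk_length_le (p : Finset ℕ × Finset ℕ) : (blk p).length ≤ 2 := by
  unfold blk
  split_ifs <;> simp

theorem blk_nodup (p : Finset ℕ × Finset ℕ) : (blk p).Nodup := by
  unfold blk
  split_ifs with h <;> simp [h]

theorem blk_getLast (p : Finset ℕ × Finset ℕ) : (blk p).getLast? = some p.2 := by
  unfold blk
  split_ifs <;> simp

theorem blk_head (p : Finset ℕ × Finset ℕ) : (blk p).head? = some p.1 := by
  unfold blk
  split_ifs with h
  · simp [h]
  · simp

theorem blk_card {p : Finset ℕ × Finset ℕ} (h1 : p.2 ⊆ p.1) (h2 : p.1.card ≤ p.2.card + 1) :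
    p.2.card + (blk p).length = p.1.card + 1 := by
  unfold blk
  split_ifs with h
  · rw [h]
    simp
  · have h3 : p.2.card < p.1.card := card_lt_card (lt_of_le_of_ne h1 (Ne.symm h))
    simp only [List.length_cons, List.length_nil]
    omega

theorem mem_flat {L : List (Finset ℕ × Finset ℕ)} {X : Finset ℕ} :
    X ∈ flat L ↔ ∃ p ∈ L, X ∈ blk p := List.mem_flatMap

theorem adm_tail {p : Finset ℕ × Finset ℕ} {L : List (Finset ℕ × Finset ℕ)}
    (h : Adm (p :: L)) : Adm L := h.of_sub ⟨[p], [], by simp⟩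

/-- no later set lies in an earlier block -/
theorem no_back {p : Finset ℕ × Finset ℕ} {L : List (Finset ℕ × Finset ℕ)}
    (h : Adm (p :: L)) {X Y : Finset ℕ} (hX : X ∈ blk p) (hY : Y ∈ flat L) : ¬ Y ⊆ X := by
  intro hYX
  obtain ⟨q, hq, hY⟩ := mem_flat.1 hY
  have h1 := (mem_blk (h.sub p (by simp)) hX).2
  have h2 := (mem_blk (h.sub q (List.mem_cons_of_mem _ hq)) hY).1
  exact (List.pairwise_cons.1 h.pw).1 q hq (h2.trans (hYX.trans h1))

theorem flat_nodup : ∀ L : List (Finset ℕ × Finset ℕ), Adm L → (flat L).Nodup := by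
  intro L
  induction L with
  | nil => intro _; simp [flat]
  | cons p L ih =>
    intro h
    rw [flat_cons, List.nodup_append]
    refine ⟨blk_nodup p, ih (adm_tail h), ?_⟩
    intro X hX Y hY hXY
    subst hXY
    exact no_back h hX hY subset_rfl

theorem flat_nl : ∀ L : List (Finset ℕ × Finset ℕ), Adm L →
    ∀ i j : ℕ, ∀ (hi : i < (flat L).length) (hj : j < (flat L).length), j + 1 < i →
      ¬ (flat L)[i] ⊆ (flat L)[j] := by
  intro L
  induction L with
  | nil =>
    intro _ i j hi
    simp [flat] at hi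
  | cons p L ih =>
    intro h i j hi hj hij
    have hb := blk_length_le p
    simp only [flat_cons] at hi hj ⊢
    have hi' : (blk p).length ≤ i := by omega
    have hi2 : i - (blk p).length < (flat L).length := by
      rw [List.length_append] at hi
      omega
    rw [List.getElem_append_right hi']
    rcases Nat.lt_or_ge j (blk p).length with hjl | hjl
    · rw [List.getElem_append_left hjl]
      exact no_back h (List.getElem_mem hjl) (List.getElem_mem hi2)
    · have hj2 : j - (blk p).length < (flat L).length := by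
        rw [List.length_append] at hj
        omega
      rw [List.getElem_append_right hjl]
      exact ih (adm_tail h) _ _ hi2 hj2 (by omega)

theorem peak_card {p q : Finset ℕ × Finset ℕ} {L : List (Finset ℕ × Finset ℕ)}
    (h : Adm (p :: q :: L)) : p.2 ⊆ q.1 ∧ p.2.card + 1 ≤ q.1.card := by
  have h1 : p.2 ⊆ q.1 := (List.isChain_cons_cons.1 h.chain).1
  refine ⟨h1, card_lt_card (lt_of_le_of_ne h1 ?_)⟩
  intro he
  refine (List.pairwise_cons.1 h.pw).1 q (by simp) ?_
  exact (h.sub q (by simp)).trans (he ▸ h.sub p (by simp))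

theorem tel : ∀ (L : List (Finset ℕ × Finset ℕ)) (p : Finset ℕ × Finset ℕ), Adm (p :: L) →
    (∀ q ∈ p :: L, q.1.card ≤ q.2.card + 1) → ∀ z ∈ (p :: L).getLast?,
    p.2.card + (blk p).length + 2 * L.length ≤ z.2.card + (flat (p :: L)).length ∧
    (z.2.card + (flat (p :: L)).length ≤ p.2.card + (blk p).length + 2 * L.length →
      (p :: L).IsChain (fun p q => q.1.card = p.2.card + 1)) := by
  intro L
  induction L with
  | nil =>
    intro p _ _ z hz
    rw [List.getLast?_singleton, Option.mem_def, Option.some.injEq] at hz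
    subst hz
    simp [flat]
  | cons q L ih =>
    intro p hA hc z hz
    rw [List.getLast?_cons_cons] at hz
    obtain ⟨h1, h2⟩ := ih q (adm_tail hA) (fun r hr => hc r (List.mem_cons_of_mem _ hr)) z hz
    have h3 := (peak_card hA).2
    have h4 := blk_card (hA.sub q (by simp)) (hc q (by simp))
    rw [flat_cons p, List.length_append, List.length_cons]
    refine ⟨by omega, ?_⟩
    intro h5
    exact List.isChain_cons_cons.2 ⟨by omega, h2 (by omega)⟩

/-- one of the two sets is the other plus one element -/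
def Nb {α : Type*} (X Y : Finset α) : Prop :=
  (X ⊆ Y ∧ Y.card = X.card + 1) ∨ (Y ⊆ X ∧ X.card = Y.card + 1)

theorem flat_chain : ∀ L : List (Finset ℕ × Finset ℕ), Adm L →
    (∀ q ∈ L, q.1.card ≤ q.2.card + 1) → L.IsChain (fun p q => q.1.card = p.2.card + 1) →
    (flat L).IsChain Nb := by
  intro L
  induction L with
  | nil => intro _ _ _; simp [flat]
  | cons p L ih =>
    intro h hc hch
    rw [flat_cons]
    refine List.isChain_append.2 ⟨?_, ?_, ?_⟩
    · unfold blk
      split_ifs with hp
      · simp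
      · rw [List.isChain_pair]
        right
        have h1 := h.sub p (by simp)
        have h3 : p.2.card < p.1.card := card_lt_card (lt_of_le_of_ne h1 (Ne.symm hp))
        have h4 := hc p (by simp)
        exact ⟨h1, by omega⟩
    · exact ih (adm_tail h) (fun r hr => hc r (List.mem_cons_of_mem _ hr))
        (List.isChain_cons.1 hch).2
    · intro X hX Y hY
      rw [blk_getLast, Option.mem_def, Option.some.injEq] at hX
      subst hX
      cases L with
      | nil => simp [flat] at hY
      | cons q L =>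
        rw [flat_cons, List.head?_append, blk_head] at hY
        simp only [Option.some_or, Option.mem_def, Option.some.injEq] at hY
        subst hY
        left
        exact ⟨(peak_card h).1, (List.isChain_cons_cons.1 hch).1⟩

theorem card_tr {n : ℕ} {X : Finset ℕ} (hX : X ⊆ Finset.range n) : (tr n X).card = X.card := by
  have h : X = (tr n X).map Fin.valEmbedding := by
    ext x
    rw [mem_map]
    constructor
    · intro hx
      exact ⟨⟨x, mem_range.1 (hX hx)⟩, mem_tr.2 hx, rfl⟩
    · rintro ⟨y, hy, rfl⟩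
      exact mem_tr.1 hy
  conv_rhs => rw [h]
  rw [card_map]

theorem nb_tr {n : ℕ} {X Y : Finset ℕ} (hX : X ⊆ Finset.range n) (hY : Y ⊆ Finset.range n)
    (h : Nb X Y) : (tr n X ⊆ tr n Y ∨ tr n Y ⊆ tr n X) ∧
      (symmDiff (tr n X) (tr n Y)).card = 1 := by
  rcases h with ⟨h1, h2⟩ | ⟨h1, h2⟩
  · have h3 := tr_mono (n := n) h1
    refine ⟨Or.inl h3, ?_⟩
    have h4 := card_sdiff_add_card_eq_card h3
    rw [card_tr hX, card_tr hY] at h4
    rw [symmDiff_of_le h3]
    omega
  · have h3 := tr_mono (n := n) h1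
    refine ⟨Or.inr h3, ?_⟩
    have h4 := card_sdiff_add_card_eq_card h3
    rw [card_tr hX, card_tr hY] at h4
    rw [symmDiff_of_ge h3]
    omega

/-- The Felsner–Trotter ordering from a full sequence. -/
theorem ordering (n : ℕ) (hn : 1 ≤ n) (h : Good2 n) :
    ∃ A : Fin (2 ^ n) → Finset (Fin n), Function.Bijective A ∧
      (∀ i : Fin (2 ^ n), i.val = 0 → A i = ∅) ∧
      (∀ i j : Fin (2 ^ n), j.val = i.val + 1 →
        (A i ⊆ A j ∨ A j ⊆ A i) ∧ (symmDiff (A i) (A j)).card = 1) ∧
      (∀ i j : Fin (2 ^ n), A i ⊆ A j → j.val < i.val → i.val = j.val + 1) := by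
  obtain ⟨L, hA, hlen, hr, hhead, hc, hlast⟩ := h
  obtain ⟨p, L', rfl⟩ : ∃ p L', L = p :: L' := by
    cases L with
    | nil => simp at hhead
    | cons p L' => exact ⟨p, L', rfl⟩
  rw [List.head?_cons, Option.some.injEq] at hhead
  subst hhead
  obtain ⟨z, hz⟩ : ∃ z, (((∅, ∅) : Finset ℕ × Finset ℕ) :: L').getLast? = some z :=
    ⟨_, List.getLast?_eq_some_getLast (by simp)⟩
  have hzr : z.2 ⊆ Finset.range n := by
    have h1 := List.mem_of_getLast? hz
    exact (hA.sub z h1).trans (hr z h1)
  have hzc : z.2.card ≤ n := by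
    have := card_le_card hzr
    rwa [card_range] at this
  have hfr : ∀ X ∈ flat ((∅, ∅) :: L'), X ⊆ Finset.range n := by
    intro X hX
    obtain ⟨q, hq, hX⟩ := mem_flat.1 hX
    exact (mem_blk (hA.sub q hq) hX).2.trans (hr q hq)
  have hnd := flat_nodup _ hA
  have hle : (flat ((∅, ∅) :: L')).length ≤ 2 ^ n := by
    rw [← List.toFinset_card_of_nodup hnd]
    have h1 : (flat ((∅, ∅) :: L')).toFinset ⊆ (Finset.range n).powerset := by
      intro X hX
      rw [mem_powerset]
      exact hfr X (List.mem_toFinset.1 hX)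
    have h2 := card_le_card h1
    rwa [card_powerset, card_range] at h2
  obtain ⟨h1, h2⟩ := tel L' (∅, ∅) hA hc z hz
  have hb : (blk ((∅, ∅) : Finset ℕ × Finset ℕ)).length = 1 := by simp [blk]
  rw [List.length_cons] at hlen
  rw [hb] at h1 h2
  simp only [card_empty] at h1 h2
  have hpow : 2 ^ n = 2 * 2 ^ (n - 1) := by
    obtain ⟨m, rfl⟩ : ∃ m, n = m + 1 := ⟨n - 1, by omega⟩
    simp [pow_succ, mul_comm]
  have hev : n % 2 = 0 → z.2.card + 1 ≤ n := fun he => hlast he z hz
  have hFl : (flat ((∅, ∅) :: L')).length = 2 ^ n := by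
    rcases Nat.mod_two_eq_zero_or_one n with he | ho
    · have := hev he
      omega
    · omega
  have hch : (flat ((∅, ∅) :: L')).IsChain Nb := by
    refine flat_chain _ hA hc (h2 ?_)
    rcases Nat.mod_two_eq_zero_or_one n with he | ho
    · have := hev he
      omega
    · omega
  have hnl := flat_nl _ hA
  have hhd : ∀ (h0 : 0 < (flat ((∅, ∅) :: L')).length), (flat ((∅, ∅) :: L'))[0] = ∅ := by
    intro h0
    simp [flat, blk]
  generalize flat ((∅, ∅) :: L') = F at hfr hnd hle hFl hch hnl hhd h1 h2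
  have hlt : ∀ i : Fin (2 ^ n), i.val < F.length := fun i => by
    rw [hFl]
    exact i.isLt
  have hsubset : ∀ i j : Fin (2 ^ n), tr n (F[i.val]'(hlt i)) ⊆ tr n (F[j.val]'(hlt j)) →
      (F[i.val]'(hlt i)) ⊆ (F[j.val]'(hlt j)) := fun i j hh =>
    subset_of_tr (hfr _ (List.getElem_mem _)) hh
  refine ⟨fun i => tr n (F[i.val]'(hlt i)), ?_, ?_, ?_, ?_⟩
  · rw [Fintype.bijective_iff_injective_and_card]
    refine ⟨?_, by simp⟩
    intro i j hij
    simp only at hij
    have h3 : (F[i.val]'(hlt i)) = (F[j.val]'(hlt j)) :=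
      Finset.Subset.antisymm (hsubset i j hij.le) (hsubset j i hij.ge)
    exact Fin.ext ((List.Nodup.getElem_inj_iff hnd).1 h3)
  · intro i hi
    have h3 : (F[i.val]'(hlt i)) = ∅ := by
      have h4 : (F[i.val]'(hlt i)) = F[0]'(by have := hlt i; omega) := by
        congr 1
      rw [h4, hhd]
    simp only [h3]
    simp [tr]
  · intro i j hj
    have h3 : i.val + 1 < F.length := by
      have := hlt j
      omega
    have h4 := List.isChain_iff_getElem.1 hch i.val h3
    have h5 : (F[j.val]'(hlt j)) = F[i.val + 1]'h3 := by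
      congr 1
    have h6 := nb_tr (hfr _ (List.getElem_mem (hlt i))) (hfr _ (List.getElem_mem h3)) h4
    simp only
    rw [h5]
    exact h6
  · intro i j hij hji
    by_contra hne
    exact hnl i.val j.val (hlt i) (hlt j) (by omega) (hsubset i j hij)

end Pool.Agent.Lib.MP_ad4d1c_co_h48.Ord
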