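import Pool.Agent.Lib.MP_ad4d1c_co_h38.Check
import Pool.Agent.Lib.MP_ad4d1c_co_h51.Final

set_option autoImplicit false

/-!
# Good sequences with control of the cardinalities (for the Felsner–Trotter ordering)
-/

namespace Pool.Agent.Lib.MP_ad4d1c_co_h48.Ord

open Finset Pool.Agent.Lib.MP_ad4d1c_co_h48 Pool.Agent.Lib.MP_ad4d1c_co_h38

/-- A full admissible sequence of subsets of `{0, ..., n-1}`, given with the peaks; every peak has
at most one element more than its valley, and for even `n` the last valley is not everything. -/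
def Good2 (n : ℕ) : Prop :=
  ∃ L : List (Finset ℕ × Finset ℕ), Adm L ∧ L.length = 2 ^ (n - 1) + (n + 1) / 2 ∧
    (∀ p ∈ L, p.1 ⊆ Finset.range n) ∧ L.head? = some (∅, ∅) ∧
    (∀ p ∈ L, p.1.card ≤ p.2.card + 1) ∧ (n % 2 = 0 → ∀ p ∈ L.getLast?, p.2.card + 1 ≤ n)

theorem card_decode : ∀ f d B, ∀ p ∈ decode f d B,
    (toSet p.1).card ≤ (toSet p.2).card + 1 := by
  intro f
  induction f with
  | zero =>
    intro d B p hp
    rw [decode, List.mem_singleton] at hp
    subst hp
    simp
  | succ f ih =>
    intro d B p hp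
    rw [decode] at hp
    simp only [force_eq] at hp
    rcases List.mem_cons.1 hp with rfl | hp
    · have h : toSet (B ||| 2 ^ (d % 16)) ⊆ insert (d % 16) (toSet B) := by
        intro j hj
        rw [mem_toSet, Nat.testBit_or, Bool.or_eq_true, Nat.testBit_two_pow,
          decide_eq_true_eq] at hj
        rw [mem_insert, mem_toSet]
        rcases hj with hj | hj
        · exact Or.inr hj
        · exact Or.inl hj.symm
      exact (card_le_card h).trans (card_insert_le _ _)
    · exact ih _ _ p hp

theorem head?_decode : ∀ f d B, ∀ p ∈ (decode f d B).head?, p.2 = B := by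
  intro f d B p hp
  cases f with
  | zero =>
    rw [decode, List.head?_cons, Option.mem_def, Option.some.injEq] at hp
    rw [← hp]
  | succ f =>
    rw [decode] at hp
    simp only [force_eq, List.head?_cons, Option.mem_def, Option.some.injEq] at hp
    rw [← hp]

theorem good2_of_check {n f d B : ℕ} (h3 : f + 1 = 2 ^ (n - 1) + (n + 1) / 2)
    (h4 : n % 2 = 0 → pc n B + 1 ≤ n)
    (h2 : firstB f d B = 0) (h1 : check n (decode f d B) 0 (n + 1) (2 ^ n - 1) = true) :
    Good2 n := by
  obtain ⟨ha, hb⟩ := adm_of_check h1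
  refine ⟨(decode f d B).reverse.map toPair, ha, ?_, ?_, ?_, ?_, ?_⟩
  · rw [List.length_map, List.length_reverse, length_decode, h3]
  · intro q hq
    obtain ⟨p, hp, rfl⟩ := List.mem_map.1 hq
    exact toSet_subset_range (hb p (List.mem_reverse.1 hp)).1
  · rw [List.head?_map, List.head?_reverse, getLast?_decode, h2]
    simp [toPair, toSet_zero]
  · intro q hq
    obtain ⟨p, hp, rfl⟩ := List.mem_map.1 hq
    exact card_decode f d B p (List.mem_reverse.1 hp)
  · intro hn q hq
    rw [List.getLast?_map, List.getLast?_reverse, Option.mem_def, Option.map_eq_some_iff] at hq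
    obtain ⟨p, hp, rfl⟩ := hq
    have h5 := head?_decode f d B p hp
    have h6 := (hb p (List.mem_of_mem_head? hp)).2
    rw [h5] at h6
    have h7 : (toPair p).2 = toSet B := by rw [toPair, h5]
    rw [h7, ← pc_eq n B h6]
    exact h4 hn

end Pool.Agent.Lib.MP_ad4d1c_co_h48.Ord
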