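import Pool.Agent.Lib.MP_ad4d1c_co_h48.OrdDef
import Pool.Agent.Lib.MP_ad4d1c_co_h51.ExWF
import Pool.Agent.Lib.MP_ad4d1c_co_h64.ExFIN
import Pool.Agent.Lib.MP_ad4d1c_co_h70.ExVS

set_option autoImplicit false

/-! The cases `n ≥ 13` with the cardinalities (after `MP_ad4d1c_co_h42/ExJ2.lean` and
`MP_ad4d1c_co_h64/ExFIN.lean`). -/

namespace Pool.Agent.Lib.MP_ad4d1c_co_h48.Ord

open Finset Pool.Agent.Lib.MP_ad4d1c_co_h48 Pool.Agent.Lib.MP_ad4d1c_co_h48.Ex
open Pool.Agent.Lib.MP_ad4d1c_co_h48.Ex.J1 Pool.Agent.Lib.MP_ad4d1c_co_h48.Ex.FIN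

/-- shift of the labels by 1 and concatenation of the levels -/
theorem vv_good2 {n : ℕ} {s e : ℕ → Finset ℕ} {V : Fam} (hn : 1 ≤ n) (hV : VV n s e V)
    (hl : ∀ k, k < n → V (k + 1) ≠ [] → e k ⊆ s (k + 1)) : Good2 n := by
  have hne : ∀ k, k < n → V k ≠ [] := by
    intro k hk h0
    have h1 := hV.len k (by omega)
    rw [h0] at h1
    have h2 : 0 < (n - 1).choose k := Nat.choose_pos (by omega)
    simp at h1
    omega
  -- admissibility
  have hno : ∀ k l, ∀ p ∈ V l, ∀ q ∈ V k, l < k → ¬ q.2 ⊆ p.1 := by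
    intro k l p hp q hq hlk hsub
    obtain ⟨-, -, hpc, -⟩ := hV.mem l p hp
    obtain ⟨-, -, -, hqc⟩ := hV.mem k q hq
    have h1 := card_le_card hsub
    have h2 : k = l + 1 := by omega
    subst h2
    exact hV.cross l p hp q hq (eq_of_subset_of_card_le hsub (by omega))
  have hadm : ∀ k, k ≤ n → MP_ad4d1c_co_h48.Adm (cat V k) := by
    intro k
    induction k with
    | zero =>
      intro _
      exact ⟨fun p hp => (hV.mem 0 p hp).1, hV.chain 0, hV.pw 0⟩
    | succ k ih =>
      intro hk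
      have h2 : MP_ad4d1c_co_h48.Adm (V (k + 1)) :=
        ⟨fun p hp => (hV.mem _ p hp).1, hV.chain _, hV.pw _⟩
      refine (ih (by omega)).append h2 ?_ ?_
      · intro p hp q hq
        rw [cat_getLast (hne k (by omega))] at hp
        rw [hV.last k p hp, hV.head (k + 1) q hq]
        refine hl k (by omega) ?_
        rintro h0
        simp [h0] at hq
      · intro p hp q hq
        obtain ⟨l, hl', hp'⟩ := cat_mem hp
        exact hno (k + 1) l p hp' q hq (by omega)
  have hsub : ∀ p ∈ cat V n, p.2 ⊆ p.1 ∧ p.1 ⊆ Icc 1 n := by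
    intro p hp
    obtain ⟨l, -, hp'⟩ := cat_mem hp
    exact ⟨(hV.mem l p hp').1, (hV.mem l p hp').2.1⟩
  have hA := hadm n le_rfl
  -- the shift
  have hinj : ∀ X Y : Finset ℕ, X ⊆ Icc 1 n → Y ⊆ Icc 1 n →
      X.image (fun x => x - 1) ⊆ Y.image (fun x => x - 1) → X ⊆ Y := by
    intro X Y hX hY h x hx
    have h1 := h (mem_image_of_mem _ hx)
    obtain ⟨y, hy, hyx⟩ := mem_image.1 h1
    have h2 := mem_Icc.1 (hX hx)
    have h3 := mem_Icc.1 (hY hy)
    have h4 : y = x := by omega
    exact h4 ▸ hy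
  have hcd : ∀ X : Finset ℕ, X ⊆ Icc 1 n → (X.image (fun x => x - 1)).card = X.card := by
    intro X hX
    apply card_image_of_injOn
    intro x hx y hy hxy
    have h2 := mem_Icc.1 (hX hx)
    have h3 := mem_Icc.1 (hX hy)
    simp only at hxy
    omega
  refine ⟨(cat V n).map (fun p => (p.1.image (fun x => x - 1), p.2.image (fun x => x - 1))),
    ⟨?_, ?_, ?_⟩, ?_, ?_, ?_, ?_, ?_⟩
  · intro p hp
    obtain ⟨q, hq, rfl⟩ := List.mem_map.1 hp
    exact image_subset_image (hsub q hq).1
  · rw [List.isChain_map]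
    exact hA.chain.imp fun p q hpq => image_subset_image hpq
  · rw [List.pairwise_map]
    refine List.Pairwise.imp_of_mem ?_ hA.pw
    intro p q hp hq hpq h
    exact hpq (hinj _ _ ((hsub q hq).1.trans (hsub q hq).2) (hsub p hp).2 h)
  · rw [List.length_map, cat_length hV.len n le_rfl]
    congr 1
    rw [Finset.sum_range_succ, Nat.choose_eq_zero_of_lt (by omega : n - 1 < n), add_zero]
    have h1 : range n = range (n - 1 + 1) := by congr 1; omega
    rw [h1]
    exact Nat.sum_range_choose (n - 1)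
  · intro p hp
    obtain ⟨q, hq, rfl⟩ := List.mem_map.1 hp
    intro x hx
    obtain ⟨y, hy, rfl⟩ := mem_image.1 hx
    have h2 := mem_Icc.1 ((hsub q hq).2 hy)
    exact mem_range.2 (by omega)
  · have h0 : (V 0).head? = some (s 0, s 0) := by
      obtain ⟨x, t, hx⟩ := List.exists_cons_of_ne_nil (hne 0 (by omega))
      have hx' : (V 0).head? = some x := by rw [hx]; rfl
      rw [hx', hV.head 0 x hx']
    have h1 : s 0 = ∅ := by
      have h2 : (s 0, s 0) ∈ V 0 := List.mem_of_mem_head? h0
      exact card_eq_zero.1 (hV.mem 0 _ h2).2.2.2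
    rw [List.head?_map, cat_head h0, h1]
    simp
  · intro p hp
    obtain ⟨q, hq, rfl⟩ := List.mem_map.1 hp
    obtain ⟨l, -, hq'⟩ := cat_mem hq
    obtain ⟨-, -, h1, h2⟩ := hV.mem l q hq'
    rw [hcd _ (hsub q hq).2, hcd _ ((hsub q hq).1.trans (hsub q hq).2)]
    omega
  · intro he p hp
    obtain ⟨q, hq, rfl⟩ := List.mem_map.1 (List.mem_of_getLast? hp)
    obtain ⟨l, hl', hq'⟩ := cat_mem hq
    obtain ⟨-, -, -, h2⟩ := hV.mem l q hq'
    rw [hcd _ ((hsub q hq).1.trans (hsub q hq).2), h2]
    by_contra hc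
    have h3 : l = n := by omega
    subst h3
    have h4 := hV.len l le_rfl
    rw [Nat.choose_eq_zero_of_lt (by omega : l - 1 < l), he] at h4
    rw [List.eq_nil_of_length_eq_zero h4] at hq'
    simp at hq'

variable {m : ℕ} {α : List ℕ} {T L : Fam}

theorem fin_even2 {V : Fam} (hm : 12 ≤ m) (he : m % 2 = 0) (hV : VV m (sV m 1) (eV m α) V)
    (hW : WF m (m :: α) T L) : Good2 (m + 1) := by
  have hS : sV m 1 = sTop m := by
    funext k; simp [sTop, he]
  rw [hS] at hV
  have hK : topK m = m - 2 := by simp [topK, he]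
  have h0 : T 0 = [] := hW.tnone 0 (by omega)
  have hT1 : det0T T L (m - 1) = [] := by
    rw [det0T_pos (by omega)]
    exact hW.tnone (m - 1) (Or.inr (topK_lt hm))
  have hVV := VV.join_even he (by omega) rfl hV (TPV.det0 hW.tpv h0) hW.gs (hs_det hW) hT1
    (fun k _ hk => he_det m α L k hk)
  refine vv_good2 (by omega) hVV ?_
  intro k hk _
  -- ends
  have eE : ∀ k, k ≤ m → topE m (joinE (m + 1) (eV m α) (det0L L)) k =
      joinE (m + 1) (eV m α) (det0L L) k := by
    intro k hk
    rw [topE, if_neg (by omega)]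
  have eS : ∀ k, k < m → topS m (m + 1) (det0L L) (joinS (m + 1) (sTop m) (det0T T L)) k =
      joinS (m + 1) (sTop m) (det0T T L) k := by
    intro k hk
    rw [topS, if_neg (by omega), if_neg (by omega)]
  rw [eE k (by omega)]
  rcases Nat.lt_or_ge k (m - 1) with h1 | h1
  · rw [eS _ (by omega)]
    match k, h1 with
    | 0, _ => exact Finset.empty_subset _
    | 1, _ => exact link_one hm hW
    | k + 2, h1 => exact link_mid hm hW (k + 1) (by omega) (by omega)
  rcases Nat.lt_or_ge k m with h2 | h2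
  · have h3 : k = m - 2 + 1 := by omega
    subst h3
    obtain ⟨p, hp, h4⟩ := joinE_pos hm hW (m - 2) (by omega) (by omega)
    have hlen : (L (m - 1)).length = 1 := by
      have := tl_len hW.tpv hW.gs (m - 1)
      rw [hW.tnone (m - 1) (Or.inr (topK_lt hm)), Nat.choose_self] at this
      simpa using this
    obtain ⟨q, hq⟩ := List.length_eq_one_iff.1 hlen
    have h5 : topS m (m + 1) (det0L L) (joinS (m + 1) (sTop m) (det0T T L)) (m - 2 + 1 + 1) =
        insert (m + 1) q.2 := by
      have h6 : m - 2 + 1 + 1 = m := by omega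
      rw [h6, topS, if_pos rfl, det0L_pos (by omega), hq]
    rw [h4, h5]
    refine Finset.insert_subset_insert _ (hW.toplink (m - 2) hK.symm p hp q ?_)
    have h6 : m - 2 + 1 = m - 1 := by omega
    rw [h6, hq]; simp
  · have h3 : k = m - 1 + 1 := by omega
    have h5 : topS m (m + 1) (det0L L) (joinS (m + 1) (sTop m) (det0T T L)) (k + 1) =
        Icc 1 (m + 1) := by
      rw [topS, if_neg (by omega), if_pos (by omega)]
    rw [h5]
    subst h3
    obtain ⟨p, hp, h4⟩ := joinE_pos hm hW (m - 1) (by omega) (by omega)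
    rw [h4]
    exact last_sub hW hp

theorem fin_odd2 {V : Fam} {α0 : List ℕ} {t : ℕ} (hm : 13 ≤ m) (ho : m % 2 = 1)
    (hα : α = α0 ++ [t, 4, 3, 2, 5, 7]) (hp : α.Perm (List.range' 1 (m - 1)))
    (hV : VV m (sO m 7) (eV m α) V) (hW : WF m (m :: α) T L) : Good2 (m + 1) := by
  have hm' : 12 ≤ m := by omega
  have hS : sO m 7 = sTop m := by
    funext k; simp [sTop, ho]
  rw [hS] at hV
  have hK : topK m = m - 3 := by simp [topK, ho]
  have h0 : T 0 = [] := hW.tnone 0 (by omega)
  have hT2 : det0T T L (m - 2) = [] := by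
    rw [det0T_pos (by omega)]
    exact hW.tnone (m - 2) (Or.inr (by omega))
  have hαl : α.length = m - 1 := by
    rw [hp.length_eq, List.length_range']
  have hnd : α.Nodup := (hp.nodup_iff).2 (List.nodup_range')
  have hαm : ∀ x, x ∈ α ↔ 1 ≤ x ∧ x < m := by
    intro x
    rw [hp.mem_iff, List.mem_range'_1]
    omega
  have htake : α.take (m - 2) = α0 ++ [t, 4, 3, 2, 5] := by
    have h1 : α = (α0 ++ [t, 4, 3, 2, 5]) ++ [7] := by rw [hα]; simp
    have h2 : (α0 ++ [t, 4, 3, 2, 5]).length = m - 2 := by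
      have := hαl
      rw [h1, List.length_append] at this
      simp only [List.length_singleton] at this
      omega
    rw [h1, ← h2, List.take_left']
    rfl
  have hfs : insert m (α.take (m - 2)).toFinset = Icc 1 m \ {7} := by
    rw [htake]
    have h1 : α = (α0 ++ [t, 4, 3, 2, 5]) ++ [7] := by rw [hα]; simp
    rw [h1] at hnd hαm
    have h7 : 7 ∉ α0 ++ [t, 4, 3, 2, 5] := by
      intro h
      exact (List.nodup_append.1 hnd).2.2 7 h 7 (by simp) rfl
    ext x
    rw [Finset.mem_insert, List.mem_toFinset, Finset.mem_sdiff, Finset.mem_Icc,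
      Finset.mem_singleton]
    have hx := hαm x
    rw [List.mem_append, List.mem_singleton] at hx
    constructor
    · rintro (rfl | h)
      · omega
      · have h2 := hx.1 (Or.inl h)
        refine ⟨by omega, ?_⟩
        rintro rfl
        exact h7 h
    · rintro ⟨h2, h3⟩
      by_cases hxm : x = m
      · left; exact hxm
      · right
        rcases hx.2 (by omega) with h | h
        · exact h
        · exact absurd h h3
  have hs2 : ∀ p ∈ (det0L L (m - 2)).head?, p.1 = sTop m (m - 1) := by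
    intro p hp
    rw [det0L_pos (by omega)] at hp
    rw [hW.tpv.head (m - 2) p hp, List.take_succ_cons, List.toFinset_cons, hfs, ← hS, sO,
      if_neg (by omega), if_neg (by omega), if_neg (by omega), if_pos rfl]
  have hVV := VV.join_rev ho (by omega) rfl hV (TPV.det0 hW.tpv h0) hW.gs (hs_det hW) hT2 hs2
    (fun k _ hk => he_det m α L k hk)
  refine vv_good2 (by omega) hVV ?_
  intro k hk hne
  have eE : ∀ k, k ≠ m - 1 → revE m (eV m α) (joinE (m + 1) (eV m α) (det0L L)) k =
      joinE (m + 1) (eV m α) (det0L L) k := by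
    intro k hk
    rw [revE, if_neg hk]
  have eS : ∀ k, k ≠ m - 1 → revS m (m + 1) (det0L L) (joinS (m + 1) (sTop m) (det0T T L)) k =
      joinS (m + 1) (sTop m) (det0T T L) k := by
    intro k hk
    rw [revS, if_neg hk]
  rcases Nat.lt_or_ge k (m - 2) with h1 | h1
  · rw [eS _ (by omega), eE _ (by omega)]
    match k, h1 with
    | 0, _ => exact Finset.empty_subset _
    | 1, _ => exact link_one hm' hW
    | k + 2, h1 => exact link_mid hm' hW (k + 1) (by omega) (by omega)
  rcases Nat.lt_or_ge k (m - 1) with h2 | h2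
  · have h3 : k = m - 3 + 1 := by omega
    subst h3
    rw [eE _ (by omega)]
    obtain ⟨p, hp, h4⟩ := joinE_pos hm' hW (m - 3) (by omega) (by omega)
    obtain ⟨q, hq⟩ := getLast_some (L_ne hm' hW (m - 2) (by omega) (by omega))
    have h5 : revS m (m + 1) (det0L L) (joinS (m + 1) (sTop m) (det0T T L)) (m - 3 + 1 + 1) =
        insert (m + 1) q.2 := by
      rw [revS, if_pos (by omega), det0L_pos (by omega), hq]
    rw [h4, h5]
    refine Finset.insert_subset_insert _ (hW.toplink (m - 3) hK.symm p hp q ?_)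
    have h6 : m - 3 + 1 = m - 2 := by omega
    rw [h6, hq]; simp
  rcases Nat.lt_or_ge k m with h3 | h3
  · have h4 : k = m - 1 := by omega
    subst h4
    rw [eS _ (by omega)]
    have h5 : joinS (m + 1) (sTop m) (det0T T L) (m - 1 + 1) = Icc 1 m := by
      simp only [joinS]
      rw [det0T_pos (by omega), hW.tnone (m - 1) (Or.inr (topK_lt hm')), ← hS]
      simp only [sO]
      rw [if_neg (by omega), if_neg (by omega), if_pos (by omega)]
    have h6 : revE m (eV m α) (joinE (m + 1) (eV m α) (det0L L)) (m - 1) = Icc 1 m \ {7} := by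
      rw [revE, if_pos rfl, eV, if_neg (by omega), if_neg (by omega), ← hfs]
      rfl
    rw [h5, h6]
    exact Finset.sdiff_subset
  · exfalso
    have h4 : k = m := by omega
    subst h4
    have := hVV.len (k + 1) le_rfl
    rw [Nat.choose_eq_zero_of_lt (by omega)] at this
    exact hne (List.eq_nil_of_length_eq_zero (by omega))


theorem good2_large (n : ℕ) (h : 13 ≤ n) : Good2 n := by
  obtain ⟨m, rfl⟩ : ∃ m, n = m + 1 := ⟨n - 1, by omega⟩
  rcases Nat.mod_two_eq_zero_or_one m with he | ho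
  · obtain ⟨α, α0, t, V, hα, ht, hp, hV⟩ := vs_top_even m (by omega) he
    obtain ⟨T, L, hW⟩ := wf_exists m (by omega) hα hp ht
    exact fin_even2 (by omega) he hV hW
  · obtain ⟨α, α0, t, V, hα, ht, hp, hV⟩ := vs_top_odd m (by omega) ho
    obtain ⟨T, L, hW⟩ := wf_exists m (by omega) hα hp ht
    exact fin_odd2 (by omega) ho hα hp hV hW

end Pool.Agent.Lib.MP_ad4d1c_co_h48.Ord
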